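import Pool.Agent.Helper54.TC.Gram

/-!
# Chern numbers of a blown up configuration of tori with weights
-/

namespace Pool.Agent.Helper54.TC

open Finset

variable {ι κ : Type*} [Fintype ι] [DecidableEq ι] [DecidableEq κ]

/-- The number `c₁²` of a blown up configuration of tori with weights.

Here `X` is a closed symplectic four-manifold with `K_X² = e(X) = 0`, `ι` is the index set of the
tori `T i` (of square zero, so that `K_X · T i = 0` by the adjunction formula), `P` is the set of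
the points which lie on at least two of the tori, `c p` is the set of the tori through `p`, the
points of `B ⊆ P` are blown up, and the points of `P \ B` are ordinary double points.
`D i = T i - ∑ E p` (sum over the points `p ∈ B` of `T i`) are the proper transforms of the tori,
`E p` (`p ∈ B`) the exceptional spheres; they have the weights `x i` and `z p`. Then `c1sq` is the
square of the class `K + ∑ x i • D i + ∑ z p • E p`, where `K = ∑ E p` is the canonical class of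
the blow up:
`E p · E p = -1`, `D i · E p = 1` if `p ∈ T i`, `D i · D i = - #(B ∩ T i)`, and for `i ≠ j`
the number `D i · D j` is the number of points of `(P \ B) ∩ T i ∩ T j`.

For an abelian covering of degree `N` of the blow up, branched along the `D i` and `E p` with
indices `n i`, `n p`, and the weights `x i = 1 - 1 / n i`, `z p = 1 - 1 / n p`, it is `1 / N` times
the number `c₁²` of the covering. -/
noncomputable def c1sq (P B : Finset κ) (c : κ → Finset ι) (x : ι → ℝ) (z : κ → ℝ) : ℝ :=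
  - ∑ p ∈ B, (1 + z p) ^ 2 + 2 * ∑ p ∈ B, ∑ i ∈ c p, (1 + z p) * x i
    - ∑ i, x i ^ 2 * #{p ∈ B | i ∈ c p} + ∑ p ∈ P \ B, ∑ i ∈ c p, ∑ j ∈ (c p).erase i, x i * x j

/-- The number `c₂` of a blown up configuration of tori with weights (notations of `c1sq`): the sum
of the Euler numbers of the strata, each multiplied by the product of `1 - weight` over the curves
containing the stratum. The strata are: the complement of the tori in `X` (Euler number
`∑ p ∈ P, (#(c p) - 1)`); the tori without the points of `P` (Euler number `- #(P ∩ T i)`);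
the exceptional spheres without the points on the proper transforms (`2 - #(c p)`); the points
`D i ∩ E p`; the double points in `P \ B`.

For an abelian covering of degree `N` of the blow up as in the description of `c1sq`, it is `1 / N`
times the Euler number of the covering. -/
noncomputable def c2 (P B : Finset κ) (c : κ → Finset ι) (x : ι → ℝ) (z : κ → ℝ) : ℝ :=
  ∑ p ∈ P, ((#(c p) : ℝ) - 1) - ∑ i, (1 - x i) * #{p ∈ P | i ∈ c p} +
    ∑ p ∈ B, (1 - z p) * (2 - #(c p)) + ∑ p ∈ B, ∑ i ∈ c p, (1 - x i) * (1 - z p) +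
    ∑ p ∈ P \ B, ∏ i ∈ c p, (1 - x i)

omit [DecidableEq κ] in
theorem sum_card_swap (P : Finset κ) (c : κ → Finset ι) (f : ι → ℝ) :
    ∑ i, f i * #{p ∈ P | i ∈ c p} = ∑ p ∈ P, ∑ i ∈ c p, f i := by
  classical
  have h1 : ∀ i, f i * #{p ∈ P | i ∈ c p} = ∑ p ∈ P, if i ∈ c p then f i else 0 := by
    intro i
    rw [← sum_filter, sum_const, nsmul_eq_mul, mul_comm]
  rw [sum_congr rfl fun i _ => h1 i, sum_comm]
  refine sum_congr rfl fun p _ => ?_
  rw [← sum_filter]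
  exact sum_congr (by ext; simp) fun _ _ => rfl

theorem c2_eq (P B : Finset κ) (hB : B ⊆ P) (c : κ → Finset ι) (hc : ∀ p ∈ P \ B, #(c p) = 2)
    (x : ι → ℝ) (z : κ → ℝ) :
    c2 P B c x z = ∑ p ∈ B, (1 - 2 * z p + z p * ∑ i ∈ c p, x i) +
      ∑ p ∈ P \ B, ∏ i ∈ c p, x i := by
  unfold c2
  rw [sum_card_swap P c (fun i => 1 - x i), ← sum_sub_distrib, ← sum_sdiff hB]
  have h1 : ∑ p ∈ B, ((#(c p) : ℝ) - 1 - ∑ i ∈ c p, (1 - x i)) +
      ∑ p ∈ B, (1 - z p) * (2 - #(c p)) + ∑ p ∈ B, ∑ i ∈ c p, (1 - x i) * (1 - z p) =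
      ∑ p ∈ B, (1 - 2 * z p + z p * ∑ i ∈ c p, x i) := by
    rw [← sum_add_distrib, ← sum_add_distrib]
    refine sum_congr rfl fun p _ => ?_
    rw [← sum_mul, sum_sub_distrib, sum_const, nsmul_eq_mul]
    ring
  have h2 : ∑ p ∈ P \ B, ((#(c p) : ℝ) - 1 - ∑ i ∈ c p, (1 - x i)) +
      ∑ p ∈ P \ B, ∏ i ∈ c p, (1 - x i) = ∑ p ∈ P \ B, ∏ i ∈ c p, x i := by
    rw [← sum_add_distrib]
    refine sum_congr rfl fun p hp => ?_
    obtain ⟨i, j, hij, hcp⟩ := card_eq_two.1 (hc p hp)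
    rw [hc p hp, hcp, sum_pair hij, prod_pair hij, prod_pair hij]
    push_cast
    ring
  linarith

theorem c1sq_eq (P B : Finset κ) (c : κ → Finset ι) (hc : ∀ p ∈ P \ B, #(c p) = 2)
    (x : ι → ℝ) (z : κ → ℝ) :
    c1sq P B c x z = ∑ p ∈ B, (- (1 + z p) ^ 2 + 2 * (1 + z p) * ∑ i ∈ c p, x i -
      ∑ i ∈ c p, x i ^ 2) + 2 * ∑ p ∈ P \ B, ∏ i ∈ c p, x i := by
  unfold c1sq
  rw [sum_card_swap B c (fun i => x i ^ 2)]
  have h1 : - ∑ p ∈ B, (1 + z p) ^ 2 + 2 * ∑ p ∈ B, ∑ i ∈ c p, (1 + z p) * x i -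
      ∑ p ∈ B, ∑ i ∈ c p, x i ^ 2 = ∑ p ∈ B, (- (1 + z p) ^ 2 + 2 * (1 + z p) * ∑ i ∈ c p, x i -
      ∑ i ∈ c p, x i ^ 2) := by
    rw [mul_sum, ← sum_neg_distrib, ← sum_add_distrib, ← sum_sub_distrib]
    refine sum_congr rfl fun p _ => ?_
    rw [← mul_sum]
    ring
  have h2 : ∑ p ∈ P \ B, ∑ i ∈ c p, ∑ j ∈ (c p).erase i, x i * x j =
      2 * ∑ p ∈ P \ B, ∏ i ∈ c p, x i := by
    rw [mul_sum]
    refine sum_congr rfl fun p hp => ?_
    obtain ⟨i, j, hij, hcp⟩ := card_eq_two.1 (hc p hp)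
    have e1 : ({i, j} : Finset ι).erase i = {j} := by
      ext k; simp only [mem_erase, mem_insert, mem_singleton]
      constructor
      · rintro ⟨h, h' | h'⟩
        · exact absurd h' h
        · exact h'
      · rintro rfl; exact ⟨hij.symm, Or.inr rfl⟩
    have e2 : ({i, j} : Finset ι).erase j = {i} := by
      ext k; simp only [mem_erase, mem_insert, mem_singleton]
      constructor
      · rintro ⟨h, h' | h'⟩
        · exact h'
        · exact absurd h' h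
      · rintro rfl; exact ⟨hij, Or.inl rfl⟩
    rw [hcp, sum_pair hij, prod_pair hij, e1, e2, sum_singleton, sum_singleton]
    ring
  linarith

theorem diff_eq (P B : Finset κ) (hB : B ⊆ P) (c : κ → Finset ι) (hc : ∀ p ∈ P \ B, #(c p) = 2)
    (x : ι → ℝ) (z : κ → ℝ) :
    c1sq P B c x z - 3 * c2 P B c x z =
      ∑ p ∈ B, ((∑ i ∈ c p, x i) ^ 2 / 4 - ∑ i ∈ c p, x i ^ 2) - ∑ p ∈ P \ B, ∏ i ∈ c p, x i -
      ∑ p ∈ B, ((2 - z p) - (∑ i ∈ c p, x i) / 2) ^ 2 := by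
  rw [c1sq_eq P B c hc, c2_eq P B hB c hc]
  have h1 : ∑ p ∈ B, (- (1 + z p) ^ 2 + 2 * (1 + z p) * ∑ i ∈ c p, x i - ∑ i ∈ c p, x i ^ 2) -
      3 * ∑ p ∈ B, (1 - 2 * z p + z p * ∑ i ∈ c p, x i) =
      ∑ p ∈ B, ((∑ i ∈ c p, x i) ^ 2 / 4 - ∑ i ∈ c p, x i ^ 2) -
      ∑ p ∈ B, ((2 - z p) - (∑ i ∈ c p, x i) / 2) ^ 2 := by
    rw [mul_sum, ← sum_sub_distrib, ← sum_sub_distrib]
    refine sum_congr rfl fun p _ => ?_
    ring
  linarith

/-- The coefficients: `1` at a blown up point, `√(xᵢ xⱼ) / xᵢ` at an ordinary double point. -/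
noncomputable def nn (B : Finset κ) (c : κ → Finset ι) (x : ι → ℝ) (p : κ) (i : ι) : ℝ :=
  if i ∈ c p then (if p ∈ B then 1 else √(∏ j ∈ c p, x j) / x i) else 0

omit [Fintype ι] in
theorem nn_mul (B : Finset κ) (c : κ → Finset ι) (x : ι → ℝ) (hx : ∀ i, 0 < x i) (p : κ) (i : ι) :
    nn B c x p i * x i = if i ∈ c p then (if p ∈ B then x i else √(∏ j ∈ c p, x j)) else 0 := by
  unfold nn
  split_ifs
  · rw [one_mul]
  · rw [div_mul_cancel₀ _ (hx i).ne']
  · rw [zero_mul]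

omit [Fintype ι] in
theorem nn_off (P B : Finset κ) (c : κ → Finset ι) (hc : ∀ p ∈ P \ B, #(c p) = 2)
    (x : ι → ℝ) (hx : ∀ i, 0 < x i) (i j : ι) (hij : i ≠ j) :
    ∑ p : P, nn B c x p i * nn B c x p j = #{p ∈ P | i ∈ c p ∧ j ∈ c p} := by
  rw [sum_coe_sort P (fun p => nn B c x p i * nn B c x p j), card_filter, Nat.cast_sum]
  refine sum_congr rfl fun p hp => ?_
  unfold nn
  by_cases h : i ∈ c p ∧ j ∈ c p
  · rw [if_pos h.1, if_pos h.2, if_pos h]
    by_cases hpB : p ∈ B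
    · rw [if_pos hpB, if_pos hpB]; norm_num
    · rw [if_neg hpB, if_neg hpB]
      have hcp : c p = {i, j} := by
        symm
        apply eq_of_subset_of_card_le
        · intro k hk
          rcases mem_insert.1 hk with rfl | hk
          · exact h.1
          · rw [mem_singleton.1 hk]; exact h.2
        · rw [hc p (mem_sdiff.2 ⟨hp, hpB⟩), card_pair hij]
      have h1 := (hx i).ne'
      have h2 := (hx j).ne'
      have h3 : √(x i * x j) * √(x i * x j) = x i * x j :=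
        Real.mul_self_sqrt (mul_pos (hx i) (hx j)).le
      rw [hcp, prod_pair hij, div_mul_div_comm, h3, div_self (mul_ne_zero h1 h2)]
      norm_num
  · rw [if_neg h]
    rw [not_and_or] at h
    rcases h with h | h
    · rw [if_neg h, zero_mul]; norm_num
    · rw [if_neg h, mul_zero]; norm_num

theorem nn_lhs (P B : Finset κ) (hB : B ⊆ P) (c : κ → Finset ι) (hc : ∀ p ∈ P \ B, #(c p) = 2)
    (x : ι → ℝ) (hx : ∀ i, 0 < x i) :
    ∑ p : P, (∑ i, nn B c x p i * x i) ^ 2 =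
      ∑ p ∈ B, (∑ i ∈ c p, x i) ^ 2 + 4 * ∑ p ∈ P \ B, ∏ i ∈ c p, x i := by
  have hprod : ∀ p, 0 ≤ ∏ j ∈ c p, x j := fun p => prod_nonneg fun j _ => (hx j).le
  rw [sum_coe_sort P (fun p => (∑ i, nn B c x p i * x i) ^ 2), ← sum_sdiff hB, add_comm]
  congr 1
  · refine sum_congr rfl fun p hp => ?_
    congr 1
    rw [sum_congr rfl fun i _ => nn_mul B c x hx p i, ← sum_filter]
    refine sum_congr (by ext; simp) fun i _ => ?_
    rw [if_pos hp]
  · rw [mul_sum]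
    refine sum_congr rfl fun p hp => ?_
    have hpB := (mem_sdiff.1 hp).2
    rw [sum_congr rfl fun i _ => nn_mul B c x hx p i, ← sum_filter]
    have h3 : ∑ i ∈ univ.filter (fun i => i ∈ c p), (if p ∈ B then x i else √(∏ j ∈ c p, x j)) =
        ∑ i ∈ c p, √(∏ j ∈ c p, x j) :=
      sum_congr (by ext; simp) fun i _ => by rw [if_neg hpB]
    rw [h3, sum_const, hc p hp, nsmul_eq_mul, mul_pow, Real.sq_sqrt (hprod p)]
    norm_num

theorem nn_rhs (P B : Finset κ) (hB : B ⊆ P) (c : κ → Finset ι) (hc : ∀ p ∈ P \ B, #(c p) = 2)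
    (x : ι → ℝ) (hx : ∀ i, 0 < x i) :
    ∑ i, (∑ p : P, nn B c x p i ^ 2) * x i ^ 2 =
      ∑ p ∈ B, ∑ i ∈ c p, x i ^ 2 + 2 * ∑ p ∈ P \ B, ∏ i ∈ c p, x i := by
  have hprod : ∀ p, 0 ≤ ∏ j ∈ c p, x j := fun p => prod_nonneg fun j _ => (hx j).le
  have h5 : ∀ i, (∑ p : P, nn B c x p i ^ 2) * x i ^ 2 = ∑ p ∈ P, (nn B c x p i * x i) ^ 2 := by
    intro i
    rw [sum_coe_sort P (fun p => nn B c x p i ^ 2), sum_mul]
    exact sum_congr rfl fun p _ => by ring
  rw [sum_congr rfl fun i _ => h5 i, sum_comm, ← sum_sdiff hB, add_comm]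
  congr 1
  · refine sum_congr rfl fun p hp => ?_
    have h6 : ∀ i, (nn B c x p i * x i) ^ 2 = if i ∈ c p then x i ^ 2 else 0 := by
      intro i
      rw [nn_mul B c x hx p i]
      split_ifs <;> simp
    rw [sum_congr rfl fun i _ => h6 i, ← sum_filter]
    exact sum_congr (by ext; simp) fun _ _ => rfl
  · rw [mul_sum]
    refine sum_congr rfl fun p hp => ?_
    have hpB := (mem_sdiff.1 hp).2
    have h6 : ∀ i, (nn B c x p i * x i) ^ 2 = if i ∈ c p then ∏ j ∈ c p, x j else 0 := by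
      intro i
      rw [nn_mul B c x hx p i]
      split_ifs
      · exact Real.sq_sqrt (hprod p)
      · simp
    rw [sum_congr rfl fun i _ => h6 i, ← sum_filter]
    have h7 : ∑ i ∈ univ.filter (fun i => i ∈ c p), ∏ j ∈ c p, x j =
        ∑ i ∈ c p, ∏ j ∈ c p, x j := sum_congr (by ext; simp) fun i _ => rfl
    rw [h7, sum_const, hc p hp, nsmul_eq_mul]
    norm_num

omit [Fintype ι] in
theorem nn_pos (P B : Finset κ) (c : κ → Finset ι) (x : ι → ℝ) (hx : ∀ i, 0 < x i) (i : ι)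
    (p : κ) (hp : p ∈ P) (hi : i ∈ c p) : 0 < ∑ p : P, nn B c x p i ^ 2 := by
  have h1 : nn B c x p i ≠ 0 := by
    unfold nn
    rw [if_pos hi]
    split_ifs
    · exact one_ne_zero
    · exact div_ne_zero (Real.sqrt_pos.2 (prod_pos fun j _ => hx j)).ne' (hx i).ne'
  refine lt_of_lt_of_le (by positivity : 0 < nn B c x p i ^ 2) ?_
  exact single_le_sum (f := fun p : P => nn B c x p i ^ 2) (fun p _ => sq_nonneg _)
    (mem_univ (⟨p, hp⟩ : P))

/-- The main inequality for positive weights. -/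
theorem main_pos {α β : Type*} [Fintype α] [Fintype β] (P B : Finset κ) (hB : B ⊆ P)
    (c : κ → Finset ι) (hc : ∀ p ∈ P \ B, #(c p) = 2) (v : α → ι → ℝ) (w : β → ι → ℝ)
    (hself : ∀ i, ∑ a, v a i ^ 2 = ∑ b, w b i ^ 2)
    (hint : ∀ i j, i ≠ j → (#{p ∈ P | i ∈ c p ∧ j ∈ c p} : ℝ) =
      ∑ a, v a i * v a j - ∑ b, w b i * w b j)
    (x : ι → ℝ) (hx : ∀ i, 0 < x i) :
    ∑ p ∈ B, (∑ i ∈ c p, x i) ^ 2 + 4 * ∑ p ∈ P \ B, ∏ i ∈ c p, x i ≤
      (Fintype.card β + 1) * (∑ p ∈ B, ∑ i ∈ c p, x i ^ 2 + 2 * ∑ p ∈ P \ B, ∏ i ∈ c p, x i) := by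
  have key := gram_bound (κ := P) (fun p i => nn B c x p i) v w
    (fun i j hij => (nn_off P B c hc x hx i j hij).trans (hint i j hij)) hself x
  rw [nn_lhs P B hB c hc x hx, nn_rhs P B hB c hc x hx] at key
  exact key

/-- The equality case for positive weights. -/
theorem main_eq (P B : Finset κ) (hB : B ⊆ P)
    (c : κ → Finset ι) (hc : ∀ p ∈ P \ B, #(c p) = 2) (v w : Fin 3 → ι → ℝ)
    (hself : ∀ i, ∑ a, v a i ^ 2 = ∑ b, w b i ^ 2)
    (hint : ∀ i j, i ≠ j → (#{p ∈ P | i ∈ c p ∧ j ∈ c p} : ℝ) =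
      ∑ a, v a i * v a j - ∑ b, w b i * w b j)
    (x : ι → ℝ) (hx : ∀ i, 0 < x i) (p₀ : κ) (hp₀ : p₀ ∈ P) (i₀ : ι) (hi₀ : i₀ ∈ c p₀)
    (heq : 4 * (∑ p ∈ B, ∑ i ∈ c p, x i ^ 2 + 2 * ∑ p ∈ P \ B, ∏ i ∈ c p, x i) ≤
      ∑ p ∈ B, (∑ i ∈ c p, x i) ^ 2 + 4 * ∑ p ∈ P \ B, ∏ i ∈ c p, x i) :
    ∃ a b : (Fin 3 → ℝ) × (Fin 3 → ℝ),
      (∀ p ∈ P, ∀ i ∈ c p, ∑ k, a.1 k * v k i = ∑ k, a.2 k * w k i) ∧
      (∀ p ∈ P, ∀ i ∈ c p, ∑ k, b.1 k * v k i = ∑ k, b.2 k * w k i) ∧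
      bf a a = 1 ∧ bf b b = 1 ∧ bf a b = 0 := by
  obtain ⟨a, b, ha, hb, h1, h2, h3⟩ := gram_eq (κ := P) (fun p i => nn B c x p i) v w
    (fun i j hij => (nn_off P B c hc x hx i j hij).trans (hint i j hij)) hself x i₀ (hx i₀).ne'
    (nn_pos P B c x hx i₀ p₀ hp₀ hi₀) (by
      rw [nn_lhs P B hB c hc x hx, nn_rhs P B hB c hc x hx]
      exact heq)
  exact ⟨a, b, fun p hp i hi => ha i (nn_pos P B c x hx i p hp hi),
    fun p hp i hi => hb i (nn_pos P B c x hx i p hp hi), h1, h2, h3⟩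

/-- The main inequality for nonnegative weights. -/
theorem main_nonneg {α β : Type*} [Fintype α] [Fintype β] (P B : Finset κ) (hB : B ⊆ P)
    (c : κ → Finset ι) (hc : ∀ p ∈ P \ B, #(c p) = 2) (v : α → ι → ℝ) (w : β → ι → ℝ)
    (hself : ∀ i, ∑ a, v a i ^ 2 = ∑ b, w b i ^ 2)
    (hint : ∀ i j, i ≠ j → (#{p ∈ P | i ∈ c p ∧ j ∈ c p} : ℝ) =
      ∑ a, v a i * v a j - ∑ b, w b i * w b j)
    (x : ι → ℝ) (hx : ∀ i, 0 ≤ x i) :
    ∑ p ∈ B, (∑ i ∈ c p, x i) ^ 2 + 4 * ∑ p ∈ P \ B, ∏ i ∈ c p, x i ≤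
      (Fintype.card β + 1) * (∑ p ∈ B, ∑ i ∈ c p, x i ^ 2 + 2 * ∑ p ∈ P \ B, ∏ i ∈ c p, x i) := by
  set L : ℝ → ℝ := fun e => ∑ p ∈ B, (∑ i ∈ c p, (x i + e)) ^ 2 +
    4 * ∑ p ∈ P \ B, ∏ i ∈ c p, (x i + e) with hL
  set R : ℝ → ℝ := fun e => (Fintype.card β + 1) * (∑ p ∈ B, ∑ i ∈ c p, (x i + e) ^ 2 +
    2 * ∑ p ∈ P \ B, ∏ i ∈ c p, (x i + e)) with hR
  have hLc : Continuous L := by
    simp only [hL]
    fun_prop
  have hRc : Continuous R := by
    simp only [hR]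
    fun_prop
  have h0 : L 0 ≤ R 0 := by
    have hL0 : Filter.Tendsto L (nhdsWithin 0 (Set.Ioi 0)) (nhds (L 0)) :=
      hLc.continuousAt.mono_left nhdsWithin_le_nhds
    have hR0 : Filter.Tendsto R (nhdsWithin 0 (Set.Ioi 0)) (nhds (R 0)) :=
      hRc.continuousAt.mono_left nhdsWithin_le_nhds
    refine le_of_tendsto_of_tendsto hL0 hR0 ?_
    filter_upwards [self_mem_nhdsWithin] with e he
    have he' : 0 < e := he
    exact main_pos P B hB c hc v w hself hint (fun i => x i + e)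
      (fun i => by have := hx i; linarith)
  simpa [hL, hR] using h0

/-- The abstract theorem. -/
theorem bmy_abstract {α : Type*} [Fintype α] (P B : Finset κ) (hB : B ⊆ P)
    (c : κ → Finset ι) (hc : ∀ p ∈ P \ B, #(c p) = 2) (v : α → ι → ℝ) (w : Fin 3 → ι → ℝ)
    (hself : ∀ i, ∑ a, v a i ^ 2 = ∑ b, w b i ^ 2)
    (hint : ∀ i j, i ≠ j → (#{p ∈ P | i ∈ c p ∧ j ∈ c p} : ℝ) =
      ∑ a, v a i * v a j - ∑ b, w b i * w b j)
    (x : ι → ℝ) (hx : ∀ i, 0 ≤ x i) (z : κ → ℝ) : c1sq P B c x z ≤ 3 * c2 P B c x z := by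
  have h1 := main_nonneg P B hB c hc v w hself hint x hx
  have h2 := diff_eq P B hB c hc x z
  have h3 : 0 ≤ ∑ p ∈ B, ((2 - z p) - (∑ i ∈ c p, x i) / 2) ^ 2 :=
    sum_nonneg fun p _ => sq_nonneg _
  rw [sum_sub_distrib, ← sum_div] at h2
  rw [Fintype.card_fin] at h1
  push_cast at h1
  linarith

end Pool.Agent.Helper54.TC
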