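import Pool.Agent.Helper54.TC.Torus4

/-!
# Positive definite planes of two-forms and complex structures
-/

namespace Pool.Agent.Helper54.TC

open Finset Matrix

/-- The skew-symmetric matrix with the coordinates `v`. -/
def mm (v : (Fin 3 → ℝ) × (Fin 3 → ℝ)) : Matrix (Fin 4) (Fin 4) ℝ :=
  !![0, v.1 0 + v.2 0, v.1 1 + v.2 1, v.1 2 + v.2 2;
    -(v.1 0 + v.2 0), 0, v.1 2 - v.2 2, v.2 1 - v.1 1;
    -(v.1 1 + v.2 1), -(v.1 2 - v.2 2), 0, v.1 0 - v.2 0;
    -(v.1 2 + v.2 2), -(v.2 1 - v.1 1), -(v.1 0 - v.2 0), 0]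

/-- The coordinates of the dual form. -/
def cj (v : (Fin 3 → ℝ) × (Fin 3 → ℝ)) : (Fin 3 → ℝ) × (Fin 3 → ℝ) := (v.1, -v.2)

theorem cj_cj (v : (Fin 3 → ℝ) × (Fin 3 → ℝ)) : cj (cj v) = v := by
  unfold cj
  simp

theorem bf_cj (v w : (Fin 3 → ℝ) × (Fin 3 → ℝ)) : bf (cj v) (cj w) = bf v w := by
  simp [bf, cj]

theorem mm_id (v w : (Fin 3 → ℝ) × (Fin 3 → ℝ)) :
    mm v * mm (cj w) + mm w * mm (cj v) = (-(2 * bf v w)) • (1 : Matrix (Fin 4) (Fin 4) ℝ) := by
  ext i j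
  fin_cases i <;> fin_cases j <;>
    simp [mm, cj, bf, Matrix.mul_apply, Fin.sum_univ_succ] <;> ring

theorem mm_id' (v w : (Fin 3 → ℝ) × (Fin 3 → ℝ)) :
    mm (cj v) * mm w + mm (cj w) * mm v = (-(2 * bf v w)) • (1 : Matrix (Fin 4) (Fin 4) ℝ) := by
  have h := mm_id (cj v) (cj w)
  rw [cj_cj, cj_cj, bf_cj] at h
  exact h

/-- The complex structure given by an orthonormal pair. -/
noncomputable def cs (a b : (Fin 3 → ℝ) × (Fin 3 → ℝ)) : Matrix (Fin 4) (Fin 4) ℝ :=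
  -(mm (cj a) * mm b)

theorem cs_sq (a b : (Fin 3 → ℝ) × (Fin 3 → ℝ)) (ha : bf a a = 1) (hb : bf b b = 1)
    (hab : bf a b = 0) : cs a b * cs a b = -1 := by
  have h1 : mm b * mm (cj a) = -(mm a * mm (cj b)) := by
    have h := mm_id a b
    rw [hab, mul_zero, neg_zero, zero_smul] at h
    exact (neg_eq_of_add_eq_zero_right h).symm
  have hself : ∀ c : (Fin 3 → ℝ) × (Fin 3 → ℝ), bf c c = 1 → mm (cj c) * mm c = -1 := by
    intro c hc
    have h := mm_id' c c
    rw [hc] at h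
    ext i j
    have h2 := congrFun (congrFun h i) j
    simp only [Matrix.add_apply, Matrix.smul_apply, smul_eq_mul] at h2
    rw [Matrix.neg_apply]
    linarith
  unfold cs
  calc -(mm (cj a) * mm b) * -(mm (cj a) * mm b)
      = mm (cj a) * (mm b * mm (cj a)) * mm b := by
        rw [neg_mul_neg, Matrix.mul_assoc, Matrix.mul_assoc, Matrix.mul_assoc]
    _ = -((mm (cj a) * mm a) * (mm (cj b) * mm b)) := by
        rw [h1, Matrix.mul_neg, Matrix.neg_mul, Matrix.mul_assoc, Matrix.mul_assoc,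
          Matrix.mul_assoc]
    _ = -1 := by
        rw [hself a ha, hself b hb]
        simp

theorem mul_cs (a b w : (Fin 3 → ℝ) × (Fin 3 → ℝ)) (ha : bf a w = 0) (hb : bf b w = 0) :
    mm w * cs a b = -(mm a * mm (cj b)) * mm w := by
  have h1 : mm w * mm (cj a) = -(mm a * mm (cj w)) := by
    have h := mm_id a w
    rw [ha, mul_zero, neg_zero, zero_smul] at h
    exact (neg_eq_of_add_eq_zero_right h).symm
  have h2 : mm (cj w) * mm b = -(mm (cj b) * mm w) := by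
    have h := mm_id' b w
    rw [hb, mul_zero, neg_zero, zero_smul] at h
    exact (neg_eq_of_add_eq_zero_right h).symm
  unfold cs
  calc mm w * -(mm (cj a) * mm b) = -((mm w * mm (cj a)) * mm b) := by
        rw [Matrix.mul_neg, Matrix.mul_assoc]
    _ = mm a * (mm (cj w) * mm b) := by
        rw [h1, Matrix.neg_mul, neg_neg, Matrix.mul_assoc]
    _ = -(mm a * mm (cj b)) * mm w := by
        rw [h2, Matrix.mul_neg, Matrix.neg_mul, Matrix.mul_assoc]

/-- The real matrix of an integral `2 × 4` matrix. -/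
noncomputable def ra (A : Matrix (Fin 2) (Fin 4) ℤ) : Matrix (Fin 2) (Fin 4) ℝ :=
  A.map (Int.cast : ℤ → ℝ)

/-- The two-form of a torus. -/
theorem mm_plucker (A : Matrix (Fin 2) (Fin 4) ℤ) (u : Fin 4 → ℝ) (k : Fin 4) :
    (mm (vp A, wp A) *ᵥ u) k =
      √2 * ((A 0 k : ℝ) * (ra A *ᵥ u) 1 - (A 1 k : ℝ) * (ra A *ᵥ u) 0) := by
  have h2 : √(2 : ℝ) * √2 = 2 := Real.mul_self_sqrt (by norm_num)
  have hne : √(2 : ℝ) ≠ 0 := by positivity
  have h3 : ∀ c : ℝ, c / √2 = √2 * (c / 2) := by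
    intro c
    field_simp
    rw [sq, h2]
  fin_cases k <;>
    simp [mm, vp, wp, ra, Matrix.mulVec, dotProduct, Fin.sum_univ_succ, h3, pl] <;> ring

theorem mm_zero_of (A : Matrix (Fin 2) (Fin 4) ℤ) (u : Fin 4 → ℝ) (hu : ra A *ᵥ u = 0) :
    mm (vp A, wp A) *ᵥ u = 0 := by
  ext k
  rw [mm_plucker, hu]
  simp

theorem zero_of_mm (A A' : Matrix (Fin 2) (Fin 4) ℤ) (hA : inter A A' ≠ 0) (u : Fin 4 → ℝ)
    (hu : mm (vp A, wp A) *ᵥ u = 0) : ra A *ᵥ u = 0 := by
  have hne : √(2 : ℝ) ≠ 0 := by positivity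
  have h1 : ∀ k, (A 0 k : ℝ) * (ra A *ᵥ u) 1 = (A 1 k : ℝ) * (ra A *ᵥ u) 0 := by
    intro k
    have h := congrFun hu k
    rw [mm_plucker, Pi.zero_apply] at h
    rcases mul_eq_zero.1 h with h | h
    · exact absurd h hne
    · linarith
  have h2 : ∃ k l, pl A k l ≠ 0 := by
    by_contra hcon
    push Not at hcon
    apply hA
    rw [inter_eq]
    simp only [hcon]
    ring
  obtain ⟨k, l, hkl⟩ := h2
  have hkl' : ((A 0 k : ℝ) * A 1 l - A 0 l * A 1 k) ≠ 0 := by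
    intro h
    apply hkl
    unfold pl
    exact_mod_cast h
  have e0 : (ra A *ᵥ u) 0 = 0 := by
    have : ((A 0 k : ℝ) * A 1 l - A 0 l * A 1 k) * (ra A *ᵥ u) 0 = 0 := by
      linear_combination (-(A 0 k : ℝ)) * h1 l + (A 0 l : ℝ) * h1 k
    exact (mul_eq_zero.1 this).resolve_left hkl'
  have e1 : (ra A *ᵥ u) 1 = 0 := by
    have : ((A 0 k : ℝ) * A 1 l - A 0 l * A 1 k) * (ra A *ᵥ u) 1 = 0 := by
      linear_combination (-(A 1 k : ℝ)) * h1 l + (A 1 l : ℝ) * h1 k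
    exact (mul_eq_zero.1 this).resolve_left hkl'
  ext k
  fin_cases k
  · exact e0
  · exact e1

variable {ι : Type} [Fintype ι] [DecidableEq ι] [DecidableEq (Fin 4 → UnitAddCircle)]

/-- In the case of equality all tori which meet another one are complex for one complex
structure. -/
theorem torus_eq (A : ι → Matrix (Fin 2) (Fin 4) ℤ) (y : ι → Fin 2 → UnitAddCircle)
    (h : ∀ i j, i ≠ j → 0 < inter (A i) (A j) ∨ Disjoint (torus (A i) (y i)) (torus (A j) (y j)))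
    (P B : Finset (Fin 4 → UnitAddCircle)) (hP : ∀ p, p ∈ P ↔ 2 ≤ #(through A y p)) (hB : B ⊆ P)
    (hc : ∀ p ∈ P \ B, #(through A y p) = 2) (x : ι → ℝ) (hx : ∀ i, 0 < x i)
    (z : (Fin 4 → UnitAddCircle) → ℝ)
    (heq : c1sq P B (through A y) x z = 3 * c2 P B (through A y) x z) :
    ∃ J : Matrix (Fin 4) (Fin 4) ℝ, J * J = -1 ∧ ∀ p ∈ P, ∀ i ∈ through A y p,
      ∀ u : Fin 4 → ℝ, ra (A i) *ᵥ u = 0 → ra (A i) *ᵥ (J *ᵥ u) = 0 := by
  rcases P.eq_empty_or_nonempty with hPe | ⟨p₀, hp₀⟩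
  · refine ⟨!![0, -1, 0, 0; 1, 0, 0, 0; 0, 0, 0, -1; 0, 0, 1, 0], ?_, ?_⟩
    · ext i j
      fin_cases i <;> fin_cases j <;> simp [Matrix.mul_apply, Fin.sum_univ_succ]
    · intro p hp
      rw [hPe] at hp
      exact absurd hp (notMem_empty _)
  · have hne : (through A y p₀).Nonempty := by
      rw [← card_pos]
      have := (hP p₀).1 hp₀
      omega
    obtain ⟨i₀, hi₀⟩ := hne
    have h1 := main_nonneg P B hB (through A y) hc (fun a i => vp (A i) a) (fun b i => wp (A i) b)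
      (fun i => self_form (A i)) (card_form A y h P hP) x (fun i => (hx i).le)
    have h2 := diff_eq P B hB (through A y) hc x z
    have h3 : 0 ≤ ∑ p ∈ B, ((2 - z p) - (∑ i ∈ through A y p, x i) / 2) ^ 2 :=
      sum_nonneg fun p _ => sq_nonneg _
    rw [sum_sub_distrib, ← sum_div] at h2
    rw [Fintype.card_fin] at h1
    push_cast at h1
    obtain ⟨a, b, ha, hb, haa, hbb, hab⟩ := main_eq P B hB (through A y) hc
      (fun a i => vp (A i) a) (fun b i => wp (A i) b)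
      (fun i => self_form (A i)) (card_form A y h P hP) x hx p₀ hp₀ i₀ hi₀ (by linarith)
    refine ⟨cs a b, cs_sq a b haa hbb hab, ?_⟩
    intro p hp i hi u hu
    have hlt : 1 < #(through A y p) := (hP p).1 hp
    obtain ⟨j, hj, hij⟩ := exists_mem_ne hlt i
    have hinter : inter (A i) (A j) ≠ 0 := by
      rcases h i j hij.symm with h4 | h4
      · exact h4.ne'
      · exact absurd ((mem_through A y p j).1 hj)
          (Set.disjoint_left.1 h4 ((mem_through A y p i).1 hi))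
    apply zero_of_mm (A i) (A j) hinter
    rw [Matrix.mulVec_mulVec, mul_cs a b (vp (A i), wp (A i))
      (by unfold bf; exact sub_eq_zero.2 (ha p hp i hi))
      (by unfold bf; exact sub_eq_zero.2 (hb p hp i hi)), ← Matrix.mulVec_mulVec,
      mm_zero_of (A i) u hu, Matrix.mulVec_zero]

end Pool.Agent.Helper54.TC
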