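import Mathlib

/-!
# The number of solutions of an integral linear system on a torus
-/

namespace Pool.Agent.Helper54.TC

open Finset Matrix

variable {n : ℕ}

/-- An integral matrix acting on the torus `(ℝ/ℤ)ⁿ`. -/
noncomputable def act (M : Matrix (Fin n) (Fin n) ℤ) :
    (Fin n → UnitAddCircle) →+ (Fin n → UnitAddCircle) where
  toFun x := fun k => ∑ j, M k j • x j
  map_zero' := by ext k; simp
  map_add' x y := by
    ext k
    simp [smul_add, sum_add_distrib]

theorem act_apply (M : Matrix (Fin n) (Fin n) ℤ) (x : Fin n → UnitAddCircle) (k : Fin n) :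
    act M x k = ∑ j, M k j • x j := rfl

theorem act_mul (M N : Matrix (Fin n) (Fin n) ℤ) (x : Fin n → UnitAddCircle) :
    act (M * N) x = act M (act N x) := by
  ext k
  simp only [act_apply, Matrix.mul_apply, sum_smul, smul_sum, mul_smul]
  rw [sum_comm]

theorem act_scalar (d : ℤ) (x : Fin n → UnitAddCircle) :
    act (d • (1 : Matrix (Fin n) (Fin n) ℤ)) x = d • x := by
  ext k
  simp only [act_apply, Matrix.smul_apply, Pi.smul_apply]
  rw [sum_eq_single k]
  · simp
  · intro j _ hj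
    rw [Matrix.one_apply_ne hj.symm, smul_zero, zero_smul]
  · intro h; exact absurd (mem_univ k) h

theorem act_surjective (M : Matrix (Fin n) (Fin n) ℤ) (hM : M.det ≠ 0) :
    Function.Surjective (act M) := by
  intro y
  have h1 : ∃ y' : Fin n → UnitAddCircle, M.det • y' = y := by
    refine ⟨fun k => DivisibleBy.div (y k) M.det, ?_⟩
    ext k
    exact DivisibleBy.div_cancel _ hM
  obtain ⟨y', hy'⟩ := h1
  refine ⟨act M.adjugate y', ?_⟩
  rw [← act_mul, Matrix.mul_adjugate, act_scalar, hy']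

/-- The map `v ↦ M⁻¹ v` from `ℤⁿ` to the torus. -/
noncomputable def psi (M : Matrix (Fin n) (Fin n) ℤ) :
    (Fin n → ℤ) →+ (Fin n → UnitAddCircle) where
  toFun v := fun k => (((∑ j, M.adjugate k j * v j : ℤ) : ℝ) / (M.det : ℝ) : ℝ)
  map_zero' := by ext k; simp
  map_add' x y := by
    ext k
    simp only [Pi.add_apply, mul_add, sum_add_distrib]
    push_cast
    rw [add_div]
    rfl

theorem psi_apply (M : Matrix (Fin n) (Fin n) ℤ) (v : Fin n → ℤ) (k : Fin n) :
    psi M v k = (((∑ j, M.adjugate k j * v j : ℤ) : ℝ) / (M.det : ℝ) : ℝ) := rfl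

/-- The projection `ℝⁿ → (ℝ/ℤ)ⁿ`. -/
noncomputable def pr : (Fin n → ℝ) →+ (Fin n → UnitAddCircle) where
  toFun x := fun k => (x k : UnitAddCircle)
  map_zero' := by ext k; simp
  map_add' x y := by ext k; simp

theorem pr_apply (x : Fin n → ℝ) (k : Fin n) : pr x k = (x k : UnitAddCircle) := rfl

theorem pr_surjective : Function.Surjective (pr : (Fin n → ℝ) →+ (Fin n → UnitAddCircle)) := by
  intro x
  choose y hy using fun k => QuotientAddGroup.mk_surjective (x k)
  exact ⟨y, funext hy⟩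

theorem pr_eq_zero (x : Fin n → ℝ) : pr x = 0 ↔ ∃ u : Fin n → ℤ, x = fun k => (u k : ℝ) := by
  constructor
  · intro h
    have h1 : ∀ k, ∃ m : ℤ, m • (1 : ℝ) = x k := fun k =>
      (AddCircle.coe_eq_zero_iff (1 : ℝ)).1 (congrFun h k)
    choose u hu using h1
    refine ⟨u, funext fun k => ?_⟩
    rw [← hu k, zsmul_eq_mul, mul_one]
  · rintro ⟨u, rfl⟩
    ext k
    rw [pr_apply]
    exact (AddCircle.coe_eq_zero_iff (1 : ℝ)).2 ⟨u k, by rw [zsmul_eq_mul, mul_one]⟩

/-- The real matrix of an integral matrix. -/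
noncomputable def rm (M : Matrix (Fin n) (Fin n) ℤ) : Matrix (Fin n) (Fin n) ℝ :=
  M.map (Int.castRingHom ℝ)

theorem rm_mulVec (M : Matrix (Fin n) (Fin n) ℤ) (v : Fin n → ℤ) :
    rm M *ᵥ (fun k => (v k : ℝ)) = fun k => (((M *ᵥ v) k : ℤ) : ℝ) := by
  ext k
  simp [rm, Matrix.mulVec, dotProduct]

theorem rm_mul (M N : Matrix (Fin n) (Fin n) ℤ) : rm (M * N) = rm M * rm N := by
  unfold rm
  exact Matrix.map_mul

theorem rm_scalar (d : ℤ) : rm (d • (1 : Matrix (Fin n) (Fin n) ℤ)) =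
    (d : ℝ) • (1 : Matrix (Fin n) (Fin n) ℝ) := by
  ext i j
  rw [rm, Matrix.map_apply, Matrix.smul_apply, Matrix.smul_apply]
  by_cases h : i = j
  · subst h; rw [Matrix.one_apply_eq, Matrix.one_apply_eq]; simp
  · rw [Matrix.one_apply_ne h, Matrix.one_apply_ne h]; simp

theorem act_pr (M : Matrix (Fin n) (Fin n) ℤ) (x : Fin n → ℝ) :
    act M (pr x) = pr (rm M *ᵥ x) := by
  ext k
  rw [act_apply, pr_apply]
  simp only [pr_apply, rm, Matrix.mulVec, dotProduct, Matrix.map_apply, Int.coe_castRingHom]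
  rw [← QuotientAddGroup.mk'_apply, map_sum]
  refine sum_congr rfl fun j _ => ?_
  rw [← zsmul_eq_mul, map_zsmul]
  rfl

theorem psi_eq (M : Matrix (Fin n) (Fin n) ℤ) (v : Fin n → ℤ) :
    psi M v = pr ((M.det : ℝ)⁻¹ • (rm M.adjugate *ᵥ (fun k => (v k : ℝ)))) := by
  ext k
  rw [psi_apply, pr_apply, rm_mulVec, Pi.smul_apply, smul_eq_mul, div_eq_inv_mul]
  rfl

theorem rm_adj (M : Matrix (Fin n) (Fin n) ℤ) (x : Fin n → ℝ) :
    rm M.adjugate *ᵥ (rm M *ᵥ x) = (M.det : ℝ) • x := by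
  rw [Matrix.mulVec_mulVec, ← rm_mul, Matrix.adjugate_mul, rm_scalar, Matrix.smul_mulVec,
    Matrix.one_mulVec]

theorem rm_adj' (M : Matrix (Fin n) (Fin n) ℤ) (x : Fin n → ℝ) :
    rm M *ᵥ (rm M.adjugate *ᵥ x) = (M.det : ℝ) • x := by
  rw [Matrix.mulVec_mulVec, ← rm_mul, Matrix.mul_adjugate, rm_scalar, Matrix.smul_mulVec,
    Matrix.one_mulVec]

theorem act_psi (M : Matrix (Fin n) (Fin n) ℤ) (hM : M.det ≠ 0) (v : Fin n → ℤ) :
    act M (psi M v) = 0 := by
  have hd : (M.det : ℝ) ≠ 0 := by exact_mod_cast hM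
  rw [psi_eq, act_pr, Matrix.mulVec_smul, rm_adj', smul_smul, inv_mul_cancel₀ hd, one_smul,
    pr_eq_zero]
  exact ⟨v, rfl⟩

theorem psi_eq_zero (M : Matrix (Fin n) (Fin n) ℤ) (hM : M.det ≠ 0) (v : Fin n → ℤ) :
    psi M v = 0 ↔ v ∈ LinearMap.range (Matrix.toLin' M) := by
  have hd : (M.det : ℝ) ≠ 0 := by exact_mod_cast hM
  rw [psi_eq, pr_eq_zero]
  constructor
  · rintro ⟨u, hu⟩
    refine ⟨u, ?_⟩
    rw [Matrix.toLin'_apply]
    have h1 : rm M *ᵥ _ = rm M *ᵥ _ := congrArg (fun y => rm M *ᵥ y) hu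
    rw [Matrix.mulVec_smul, rm_adj', smul_smul, inv_mul_cancel₀ hd, one_smul, rm_mulVec] at h1
    ext k
    have := congrFun h1 k
    exact_mod_cast this.symm
  · rintro ⟨u, rfl⟩
    refine ⟨u, ?_⟩
    rw [Matrix.toLin'_apply]
    have h1 := rm_adj M (fun k => (u k : ℝ))
    rw [rm_mulVec] at h1
    rw [h1, smul_smul, inv_mul_cancel₀ hd, one_smul]

theorem mem_range_psi (M : Matrix (Fin n) (Fin n) ℤ) (hM : M.det ≠ 0) (x : Fin n → UnitAddCircle)
    (hx : act M x = 0) : ∃ v, psi M v = x := by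
  have hd : (M.det : ℝ) ≠ 0 := by exact_mod_cast hM
  obtain ⟨x', rfl⟩ := pr_surjective x
  rw [act_pr, pr_eq_zero] at hx
  obtain ⟨v, hv⟩ := hx
  refine ⟨v, ?_⟩
  rw [psi_eq, ← hv, rm_adj, smul_smul, inv_mul_cancel₀ hd, one_smul]

theorem card_quotient (M : Matrix (Fin n) (Fin n) ℤ) (hM : M.det ≠ 0) :
    Nat.card ((Fin n → ℤ) ⧸ LinearMap.range (Matrix.toLin' M)) = M.det.natAbs := by
  have hinj : Function.Injective (Matrix.toLin' M) := by
    rw [← LinearMap.ker_eq_bot, LinearMap.ker_eq_bot']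
    intro u hu
    rw [Matrix.toLin'_apply] at hu
    exact Matrix.eq_zero_of_mulVec_eq_zero hM hu
  have h := Submodule.natAbs_det_equiv (LinearMap.range (Matrix.toLin' M))
    (LinearEquiv.ofInjective (Matrix.toLin' M) hinj)
  rw [← h]
  congr 1
  rw [← LinearMap.det_toLin' M]
  congr 1

theorem card_ker (M : Matrix (Fin n) (Fin n) ℤ) (hM : M.det ≠ 0) :
    Nat.card {x : Fin n → UnitAddCircle // act M x = 0} = M.det.natAbs := by
  rw [← card_quotient M hM]
  have h1 : (psi M).ker = (LinearMap.range (Matrix.toLin' M)).toAddSubgroup := by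
    ext v
    rw [AddMonoidHom.mem_ker, psi_eq_zero M hM]
    rfl
  have h2 : Nat.card {x : Fin n → UnitAddCircle // act M x = 0} = Nat.card (psi M).range := by
    apply Nat.card_congr
    apply Equiv.subtypeEquivRight
    intro x
    constructor
    · intro hx
      obtain ⟨v, hv⟩ := mem_range_psi M hM x hx
      exact ⟨v, hv⟩
    · rintro ⟨v, rfl⟩
      exact act_psi M hM v
  rw [h2, ← Nat.card_congr (QuotientAddGroup.quotientKerEquivRange (psi M)).toEquiv, h1]
  rfl

theorem card_fiber (M : Matrix (Fin n) (Fin n) ℤ) (hM : M.det ≠ 0) (y : Fin n → UnitAddCircle) :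
    Nat.card {x : Fin n → UnitAddCircle // act M x = y} = M.det.natAbs := by
  rw [← card_ker M hM]
  obtain ⟨x0, rfl⟩ := act_surjective M hM y
  apply Nat.card_congr
  exact {
    toFun := fun x => ⟨x.1 - x0, by rw [map_sub, x.2, sub_self]⟩
    invFun := fun x => ⟨x.1 + x0, by rw [map_add, x.2, zero_add]⟩
    left_inv := fun x => Subtype.ext (sub_add_cancel _ _)
    right_inv := fun x => Subtype.ext (add_sub_cancel_right _ _) }

end Pool.Agent.Helper54.TC
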