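import Pool.Agent.Helper54.TC.Hilbert

/-!
# The equality case of the trace inequality
-/

namespace Pool.Agent.Helper54.TC

open Finset

open scoped InnerProductSpace

/-- Summed Bessel inequality. -/
theorem bessel_sum {ι κ : Type*} [Fintype ι] [Fintype κ]
    {E : Type*} [NormedAddCommGroup E] [InnerProductSpace ℝ E] [FiniteDimensional ℝ E]
    (b : ι → E) (h2 : ∑ p, ‖b p‖ ^ 2 = Module.finrank ℝ E) (v : κ → E) (hv : Orthonormal ℝ v) :
    ∑ k, ∑ p, ⟪b p, v k⟫_ℝ ^ 2 ≤ Module.finrank ℝ E := by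
  rw [← h2, sum_comm]
  refine sum_le_sum fun p _ => ?_
  have := hv.sum_inner_products_le (b p) (s := univ)
  simp only [Real.norm_eq_abs, sq_abs] at this
  calc _ = ∑ k, ⟪v k, b p⟫_ℝ ^ 2 := sum_congr rfl fun k _ => by rw [real_inner_comm]
    _ ≤ _ := this

/-- Adding a unit vector to an orthonormal family. -/
theorem orthonormal_option {κ : Type*}
    {E : Type*} [NormedAddCommGroup E] [InnerProductSpace ℝ E]
    (v : κ → E) (hv : Orthonormal ℝ v) (u : E) (hu : ‖u‖ = 1) (huv : ∀ k, ⟪u, v k⟫_ℝ = 0) :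
    Orthonormal ℝ (fun o : Option κ => o.elim u v) := by
  constructor
  · intro o
    cases o with
    | none => exact hu
    | some j => exact hv.1 j
  · intro o o' hoo
    cases o with
    | none =>
      cases o' with
      | none => exact absurd rfl hoo
      | some j => exact huv j
    | some i =>
      cases o' with
      | none =>
        change ⟪v i, u⟫_ℝ = 0
        rw [real_inner_comm]
        exact huv i
      | some j => exact hv.2 (fun h => hoo (by rw [h]))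

/-- The equality case of `trace_bound`. -/
theorem trace_eq {ι α β : Type*} [Fintype ι] [Fintype α] [Fintype β]
    {E : Type*} [NormedAddCommGroup E] [InnerProductSpace ℝ E] [FiniteDimensional ℝ E]
    (b : ι → E) (x : α → E) (z : β → E)
    (h1 : ∀ f : E, ∑ p, ⟪b p, f⟫_ℝ ^ 2 =
      ‖f‖ ^ 2 + ∑ a, ⟪x a, f⟫_ℝ ^ 2 - ∑ c, ⟪z c, f⟫_ℝ ^ 2)
    (h2 : ∑ p, ‖b p‖ ^ 2 = Module.finrank ℝ E) (e : E) (he : e ≠ 0)
    (heq : (Fintype.card β + 1) * ‖e‖ ^ 2 ≤ ∑ p, ⟪b p, e⟫_ℝ ^ 2) :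
    ∃ (S N : Submodule ℝ E), Module.finrank ℝ S ≤ Fintype.card β + 1 ∧ (∀ a, x a ∈ S) ∧
      (∀ c, z c ∈ S) ∧ Module.finrank ℝ N = Fintype.card β ∧
      ∀ f ∈ N, ∑ a, ⟪x a, f⟫_ℝ ^ 2 - ∑ c, ⟪z c, f⟫_ℝ ^ 2 = - ‖f‖ ^ 2 := by
  classical
  have hne : ‖e‖ ≠ 0 := norm_ne_zero_iff.mpr he
  set u : E := (‖e‖)⁻¹ • e with hu
  have hu1 : ‖u‖ = 1 := by
    rw [hu, norm_smul, norm_inv, norm_norm, inv_mul_cancel₀ hne]
  set g : Option β → E := fun o => o.elim u z with hg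
  set S : Submodule ℝ E := Submodule.span ℝ (Set.range g) with hS
  have hS1 : Module.finrank ℝ S ≤ Fintype.card β + 1 := by
    have := finrank_range_le_card (R := ℝ) g
    rw [Fintype.card_option] at this
    exact this
  have huS : u ∈ S := Submodule.subset_span ⟨none, rfl⟩
  have hzS : ∀ c, z c ∈ S := fun c => Submodule.subset_span ⟨some c, rfl⟩
  have hfin := Submodule.finrank_add_finrank_orthogonal S
  set w := stdOrthonormalBasis ℝ Sᗮ with hw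
  have hwS : ∀ j, ∀ y ∈ S, ⟪y, (w j : E)⟫_ℝ = 0 := by
    intro j y hy
    exact (Submodule.mem_orthogonal S _).1 (w j).2 y hy
  have hwo : Orthonormal ℝ (fun j => (w j : E)) := by
    constructor
    · intro j
      have := w.orthonormal.1 j
      rwa [Submodule.coe_norm] at this
    · intro i j hij
      have h : ⟪w i, w j⟫_ℝ = 0 := w.orthonormal.2 hij
      rw [Submodule.coe_inner] at h
      exact h
  have hvo := orthonormal_option (fun j => (w j : E)) hwo u hu1 (fun j => hwS j u huS)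
  have hval : ∀ j, ∑ p, ⟪b p, (w j : E)⟫_ℝ ^ 2 = 1 + ∑ a, ⟪x a, (w j : E)⟫_ℝ ^ 2 := by
    intro j
    rw [h1 (w j : E), hwo.1 j]
    have : ∑ c, ⟪z c, (w j : E)⟫_ℝ ^ 2 = 0 :=
      sum_eq_zero fun c _ => by rw [hwS j (z c) (hzS c)]; ring
    rw [this]
    ring
  have hu2 : (Fintype.card β + 1 : ℝ) ≤ ∑ p, ⟪b p, u⟫_ℝ ^ 2 := by
    have h3 : ∑ p, ⟪b p, u⟫_ℝ ^ 2 = (∑ p, ⟪b p, e⟫_ℝ ^ 2) / ‖e‖ ^ 2 := by
      rw [sum_div]
      refine sum_congr rfl fun p _ => ?_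
      rw [hu, inner_smul_right]
      field_simp
    rw [h3, le_div_iff₀ (by positivity)]
    exact heq
  have hxw0 : ∀ a j, 0 ≤ ⟪x a, (w j : E)⟫_ℝ ^ 2 := fun a j => sq_nonneg _
  have hsumw : ∑ j, ∑ p, ⟪b p, (w j : E)⟫_ℝ ^ 2 =
      Module.finrank ℝ Sᗮ + ∑ j, ∑ a, ⟪x a, (w j : E)⟫_ℝ ^ 2 := by
    rw [sum_congr rfl fun j _ => hval j, sum_add_distrib]
    simp
  have hxw1 : 0 ≤ ∑ j, ∑ a, ⟪x a, (w j : E)⟫_ℝ ^ 2 :=
    sum_nonneg fun j _ => sum_nonneg fun a _ => hxw0 a j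
  have hdim : (Module.finrank ℝ S : ℝ) + Module.finrank ℝ Sᗮ = Module.finrank ℝ E := by
    exact_mod_cast hfin
  have hS2 : (Module.finrank ℝ S : ℝ) ≤ Fintype.card β + 1 := by exact_mod_cast hS1
  have hb := bessel_sum b h2 _ hvo
  rw [Fintype.sum_option] at hb
  simp only [Option.elim] at hb
  rw [hsumw] at hb
  have hxw2 : ∑ j, ∑ a, ⟪x a, (w j : E)⟫_ℝ ^ 2 = 0 := by linarith
  have hSfin : Module.finrank ℝ S = Fintype.card β + 1 := by
    have : (Fintype.card β + 1 : ℝ) ≤ Module.finrank ℝ S := by linarith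
    have : Fintype.card β + 1 ≤ Module.finrank ℝ S := by exact_mod_cast this
    omega
  have hxS : ∀ a, x a ∈ S := by
    intro a
    have h3 : ∀ j, ⟪x a, (w j : E)⟫_ℝ = 0 := by
      intro j
      have h4 := (sum_eq_zero_iff_of_nonneg (fun j _ => sum_nonneg fun a _ => hxw0 a j)).1 hxw2 j
        (mem_univ j)
      have h5 := (sum_eq_zero_iff_of_nonneg (fun a _ => hxw0 a j)).1 h4 a (mem_univ a)
      exact pow_eq_zero_iff two_ne_zero |>.1 h5
    rw [← Submodule.orthogonal_orthogonal S, Submodule.mem_orthogonal]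
    intro y hy
    have h6 : (⟨y, hy⟩ : Sᗮ) = ∑ j, ⟪w j, (⟨y, hy⟩ : Sᗮ)⟫_ℝ • w j := (w.sum_repr' _).symm
    have h7 : y = ∑ j, ⟪w j, (⟨y, hy⟩ : Sᗮ)⟫_ℝ • (w j : E) := by
      have := congrArg (Subtype.val) h6
      simpa using this
    rw [real_inner_comm, h7, inner_sum]
    refine sum_eq_zero fun j _ => ?_
    rw [inner_smul_right, h3 j, mul_zero]
  refine ⟨S, (Submodule.span ℝ {u})ᗮ ⊓ S, hS1, hxS, hzS, ?_, ?_⟩
  · have h3 := Submodule.finrank_add_inf_finrank_orthogonal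
      (K₁ := Submodule.span ℝ {u}) (K₂ := S) (by
        rw [Submodule.span_singleton_le_iff_mem]; exact huS)
    have hu0 : u ≠ 0 := by
      intro h; rw [h, norm_zero] at hu1; exact zero_ne_one hu1
    rw [finrank_span_singleton hu0] at h3
    omega
  · rintro f ⟨hf1, hf2⟩
    have hfu : ⟪f, u⟫_ℝ = 0 := by
      rw [real_inner_comm]
      exact (Submodule.mem_orthogonal _ _).1 hf1 u (Submodule.mem_span_singleton_self u)
    rcases eq_or_ne f 0 with rfl | hf0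
    · simp
    have hfn : ‖f‖ ≠ 0 := norm_ne_zero_iff.mpr hf0
    set y : E := (‖f‖)⁻¹ • f with hy
    have hy1 : ‖y‖ = 1 := by
      rw [hy, norm_smul, norm_inv, norm_norm, inv_mul_cancel₀ hfn]
    have hvo2 := orthonormal_option _ hvo y hy1 (by
      intro o
      cases o with
      | none =>
        change ⟪y, u⟫_ℝ = 0
        rw [hy, real_inner_smul_left, hfu, mul_zero]
      | some j =>
        change ⟪y, (w j : E)⟫_ℝ = 0
        rw [hy, real_inner_smul_left, hwS j f hf2, mul_zero])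
    have hb2 := bessel_sum b h2 _ hvo2
    rw [Fintype.sum_option, Fintype.sum_option] at hb2
    simp only [Option.elim] at hb2
    rw [hsumw, hxw2] at hb2
    have h8 : ∑ p, ⟪b p, y⟫_ℝ ^ 2 ≤ 0 := by linarith
    have h9 : ∑ p, ⟪b p, y⟫_ℝ ^ 2 = 0 :=
      le_antisymm h8 (sum_nonneg fun p _ => sq_nonneg _)
    have h10 : ∑ p, ⟪b p, f⟫_ℝ ^ 2 = 0 := by
      have h11 : ∑ p, ⟪b p, y⟫_ℝ ^ 2 = (∑ p, ⟪b p, f⟫_ℝ ^ 2) / ‖f‖ ^ 2 := by
        rw [sum_div]
        refine sum_congr rfl fun p _ => ?_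
        rw [hy, inner_smul_right]
        field_simp
      rw [h11, div_eq_zero_iff] at h9
      rcases h9 with h9 | h9
      · exact h9
      · exact absurd (pow_eq_zero_iff two_ne_zero |>.1 h9) hfn
    have := h1 f
    rw [h10] at this
    linarith

/-- The linear map `(s, t) ↦ ∑ s_a x_a - ∑ t_c z_c`. -/
noncomputable def psiMap {E : Type*} [NormedAddCommGroup E] [InnerProductSpace ℝ E]
    (x z : Fin 3 → E) : ((Fin 3 → ℝ) × (Fin 3 → ℝ)) →ₗ[ℝ] E :=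
  (Fintype.linearCombination ℝ x).comp (LinearMap.fst ℝ _ _) -
    (Fintype.linearCombination ℝ z).comp (LinearMap.snd ℝ _ _)

theorem psiMap_apply {E : Type*} [NormedAddCommGroup E] [InnerProductSpace ℝ E]
    (x z : Fin 3 → E) (v : (Fin 3 → ℝ) × (Fin 3 → ℝ)) :
    psiMap x z v = ∑ a, v.1 a • x a - ∑ c, v.2 c • z c := by
  simp [psiMap, Fintype.linearCombination_apply]

/-- The form of signature `(3, 3)`. -/
def bf (v w : (Fin 3 → ℝ) × (Fin 3 → ℝ)) : ℝ := ∑ a, v.1 a * w.1 a - ∑ c, v.2 c * w.2 c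

theorem bf_add (v w w' : (Fin 3 → ℝ) × (Fin 3 → ℝ)) : bf v (w + w') = bf v w + bf v w' := by
  simp only [bf, Prod.fst_add, Prod.snd_add, Pi.add_apply, mul_add, sum_add_distrib]
  ring

theorem bf_smul (c : ℝ) (v w : (Fin 3 → ℝ) × (Fin 3 → ℝ)) : bf v (c • w) = c * bf v w := by
  simp only [bf, Prod.smul_fst, Prod.smul_snd, Pi.smul_apply, smul_eq_mul, mul_sub, mul_sum]
  congr 1
  · exact sum_congr rfl fun a _ => by ring
  · exact sum_congr rfl fun a _ => by ring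

theorem bf_comm (v w : (Fin 3 → ℝ) × (Fin 3 → ℝ)) : bf v w = bf w v := by
  simp only [bf, mul_comm]

theorem bf_smul_left (c : ℝ) (v w : (Fin 3 → ℝ) × (Fin 3 → ℝ)) :
    bf (c • v) w = c * bf v w := by
  rw [bf_comm, bf_smul, bf_comm]

/-- The form is positive definite on the kernel. -/
theorem psi_ker_pos {E : Type*} [NormedAddCommGroup E] [InnerProductSpace ℝ E]
    [FiniteDimensional ℝ E] (x z : Fin 3 → E) (N : Submodule ℝ E)
    (hN : Module.finrank ℝ N = 3)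
    (hneg : ∀ f ∈ N, ∑ a, ⟪x a, f⟫_ℝ ^ 2 - ∑ c, ⟪z c, f⟫_ℝ ^ 2 = - ‖f‖ ^ 2)
    (v : (Fin 3 → ℝ) × (Fin 3 → ℝ)) (hv : psiMap x z v = 0) (hv0 : v ≠ 0) : 0 < bf v v := by
  -- the map `f ↦ (⟨z_c, f⟩)` is injective on `N`, hence surjective
  let Z : N →ₗ[ℝ] (Fin 3 → ℝ) := LinearMap.pi fun c => (innerₛₗ ℝ (z c)).comp N.subtype
  have hZ : ∀ (f : N) (c : Fin 3), Z f c = ⟪z c, (f : E)⟫_ℝ := fun f c => rfl
  have hinj : Function.Injective Z := by
    rw [← LinearMap.ker_eq_bot, LinearMap.ker_eq_bot']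
    intro f hf
    have h1 := hneg f f.2
    have h2 : ∑ c, ⟪z c, (f : E)⟫_ℝ ^ 2 = 0 := sum_eq_zero fun c _ => by
      rw [← hZ, hf, Pi.zero_apply]; norm_num
    rw [h2] at h1
    have h3 : 0 ≤ ∑ a, ⟪x a, (f : E)⟫_ℝ ^ 2 := sum_nonneg fun a _ => sq_nonneg _
    have h4 : ‖(f : E)‖ ^ 2 = 0 := le_antisymm (by linarith) (sq_nonneg _)
    have h5 : (f : E) = 0 := norm_eq_zero.1 (pow_eq_zero_iff two_ne_zero |>.1 h4)
    exact Subtype.ext h5
  have hsurj : Function.Surjective Z :=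
    (LinearMap.injective_iff_surjective_of_finrank_eq_finrank (by rw [hN]; simp)).1 hinj
  obtain ⟨f, hf⟩ := hsurj v.2
  have h1 := hneg f f.2
  have h2 : ∑ c, ⟪z c, (f : E)⟫_ℝ ^ 2 = ∑ c, v.2 c ^ 2 :=
    sum_congr rfl fun c _ => by rw [← hZ, hf]
  rw [h2] at h1
  -- pairing with `f`
  have h3 : ∑ a, v.1 a * ⟪x a, (f : E)⟫_ℝ = ∑ c, v.2 c ^ 2 := by
    rw [psiMap_apply] at hv
    have h4 : ⟪∑ a, v.1 a • x a - ∑ c, v.2 c • z c, (f : E)⟫_ℝ = 0 := by
      rw [hv, inner_zero_left]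
    rw [inner_sub_left, sum_inner, sum_inner] at h4
    simp only [real_inner_smul_left] at h4
    have h5 : ∑ c, v.2 c * ⟪z c, (f : E)⟫_ℝ = ∑ c, v.2 c ^ 2 :=
      sum_congr rfl fun c _ => by rw [← hZ, hf]; ring
    linarith
  have h6 : (∑ a, v.1 a * ⟪x a, (f : E)⟫_ℝ) ^ 2 ≤
      (∑ a, v.1 a ^ 2) * ∑ a, ⟪x a, (f : E)⟫_ℝ ^ 2 := sum_mul_sq_le_sq_mul_sq _ _ _
  have hs0 : 0 ≤ ∑ a, v.1 a ^ 2 := sum_nonneg fun a _ => sq_nonneg _
  have ht0 : 0 ≤ ∑ c, v.2 c ^ 2 := sum_nonneg fun a _ => sq_nonneg _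
  have hbf : bf v v = ∑ a, v.1 a ^ 2 - ∑ c, v.2 c ^ 2 := by
    simp only [bf, sq]
  rw [hbf]
  rw [h3] at h6
  by_cases ht : ∑ c, v.2 c ^ 2 = 0
  · -- then `v.1 ≠ 0`
    rw [ht, sub_zero]
    rcases hs0.lt_or_eq with h | h
    · exact h
    · exfalso
      apply hv0
      have e1 : v.1 = 0 := by
        ext a
        have := (sum_eq_zero_iff_of_nonneg (fun a _ => sq_nonneg (v.1 a))).1 h.symm a (mem_univ a)
        exact pow_eq_zero_iff two_ne_zero |>.1 this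
      have e2 : v.2 = 0 := by
        ext a
        have := (sum_eq_zero_iff_of_nonneg (fun a _ => sq_nonneg (v.2 a))).1 ht a (mem_univ a)
        exact pow_eq_zero_iff two_ne_zero |>.1 this
      exact Prod.ext e1 e2
  · have htpos : 0 < ∑ c, v.2 c ^ 2 := lt_of_le_of_ne ht0 (Ne.symm ht)
    have hf0 : (f : E) ≠ 0 := by
      intro h
      apply ht
      rw [← h2, h]
      simp
    have hfpos : 0 < ‖(f : E)‖ ^ 2 := by positivity
    have h7 : ∑ a, ⟪x a, (f : E)⟫_ℝ ^ 2 = ∑ c, v.2 c ^ 2 - ‖(f : E)‖ ^ 2 := by linarith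
    rw [h7] at h6
    by_contra hcon
    push Not at hcon
    have h8 : ∑ a, v.1 a ^ 2 ≤ ∑ c, v.2 c ^ 2 := by linarith
    have h9 : 0 ≤ ∑ c, v.2 c ^ 2 - ‖(f : E)‖ ^ 2 := by
      rw [← h7]; exact sum_nonneg fun a _ => sq_nonneg _
    nlinarith [mul_le_mul_of_nonneg_right h8 h9, mul_pos htpos hfpos]

/-- Two vectors of norm one which are orthogonal to each other and to all classes. -/
theorem eq_pair {E : Type*} [NormedAddCommGroup E] [InnerProductSpace ℝ E]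
    [FiniteDimensional ℝ E] (x z : Fin 3 → E) (S N : Submodule ℝ E)
    (hS : Module.finrank ℝ S ≤ 4) (hx : ∀ a, x a ∈ S) (hz : ∀ c, z c ∈ S)
    (hN : Module.finrank ℝ N = 3)
    (hneg : ∀ f ∈ N, ∑ a, ⟪x a, f⟫_ℝ ^ 2 - ∑ c, ⟪z c, f⟫_ℝ ^ 2 = - ‖f‖ ^ 2) :
    ∃ v v' : (Fin 3 → ℝ) × (Fin 3 → ℝ), psiMap x z v = 0 ∧ psiMap x z v' = 0 ∧
      bf v v = 1 ∧ bf v' v' = 1 ∧ bf v v' = 0 := by
  have hK := LinearMap.finrank_range_add_finrank_ker (psiMap x z)
  have hR : Module.finrank ℝ (LinearMap.range (psiMap x z)) ≤ 4 := by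
    refine le_trans (Submodule.finrank_mono ?_) hS
    rintro _ ⟨v, rfl⟩
    rw [psiMap_apply]
    exact S.sub_mem (S.sum_mem fun a _ => S.smul_mem _ (hx a))
      (S.sum_mem fun a _ => S.smul_mem _ (hz a))
  have h6 : Module.finrank ℝ ((Fin 3 → ℝ) × (Fin 3 → ℝ)) = 6 := by simp
  rw [h6] at hK
  have hK2 : 2 ≤ Module.finrank ℝ (LinearMap.ker (psiMap x z)) := by omega
  have hnt : Nontrivial (LinearMap.ker (psiMap x z)) := by
    apply Module.nontrivial_of_finrank_pos (R := ℝ)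
    omega
  obtain ⟨k1, hk1⟩ := exists_ne (0 : LinearMap.ker (psiMap x z))
  let φ : LinearMap.ker (psiMap x z) →ₗ[ℝ] ℝ :=
    { toFun := fun v => bf k1 v
      map_add' := fun v w => by
        rw [Submodule.coe_add, bf_add]
      map_smul' := fun c v => by
        rw [Submodule.coe_smul, bf_smul]; rfl }
  have hφ := LinearMap.finrank_range_add_finrank_ker φ
  have hφr : Module.finrank ℝ (LinearMap.range φ) ≤ 1 := by
    refine le_trans (Submodule.finrank_le _) ?_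
    simp
  have hnt2 : Nontrivial (LinearMap.ker φ) := by
    apply Module.nontrivial_of_finrank_pos (R := ℝ)
    omega
  obtain ⟨k2, hk2⟩ := exists_ne (0 : LinearMap.ker φ)
  have hpos := psi_ker_pos x z N hN hneg
  have hk1v : psiMap x z (k1 : (Fin 3 → ℝ) × (Fin 3 → ℝ)) = 0 := k1.2
  have hk10 : (k1 : (Fin 3 → ℝ) × (Fin 3 → ℝ)) ≠ 0 := fun h => hk1 (Subtype.ext h)
  have hk2v : psiMap x z ((k2 : LinearMap.ker (psiMap x z)) : (Fin 3 → ℝ) × (Fin 3 → ℝ)) = 0 :=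
    (k2 : LinearMap.ker (psiMap x z)).2
  have hk20 : ((k2 : LinearMap.ker (psiMap x z)) : (Fin 3 → ℝ) × (Fin 3 → ℝ)) ≠ 0 :=
    fun h => hk2 (Subtype.ext (Subtype.ext h))
  have hk12 : bf (k1 : (Fin 3 → ℝ) × (Fin 3 → ℝ))
      ((k2 : LinearMap.ker (psiMap x z)) : (Fin 3 → ℝ) × (Fin 3 → ℝ)) = 0 := k2.2
  have p1 := hpos _ hk1v hk10
  have p2 := hpos _ hk2v hk20
  set a := (k1 : (Fin 3 → ℝ) × (Fin 3 → ℝ)) with ha
  set b := ((k2 : LinearMap.ker (psiMap x z)) : (Fin 3 → ℝ) × (Fin 3 → ℝ)) with hb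
  have hnorm : ∀ v : (Fin 3 → ℝ) × (Fin 3 → ℝ), 0 < bf v v →
      bf ((√(bf v v))⁻¹ • v) ((√(bf v v))⁻¹ • v) = 1 := by
    intro v hv
    rw [bf_smul, bf_smul_left]
    have h1 : √(bf v v) * √(bf v v) = bf v v := Real.mul_self_sqrt hv.le
    have h2 : √(bf v v) ≠ 0 := (Real.sqrt_pos.2 hv).ne'
    field_simp
    rw [sq, h1]
  refine ⟨(√(bf a a))⁻¹ • a, (√(bf b b))⁻¹ • b, ?_, ?_, hnorm a p1, hnorm b p2, ?_⟩
  · rw [map_smul, hk1v, smul_zero]
  · rw [map_smul, hk2v, smul_zero]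
  · rw [bf_smul, bf_smul_left, hk12]
    ring

end Pool.Agent.Helper54.TC
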