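import Pool.Agent.Helper54.TC.Hilbert
import Pool.Agent.Helper54.TC.EqCase

/-!
# The Gram matrix inequality
-/

namespace Pool.Agent.Helper54.TC

open Finset

open scoped InnerProductSpace

theorem sq_sum_expand {ι κ : Type*} [Fintype ι] [Fintype κ] (n : κ → ι → ℝ) (h : ι → ℝ) :
    ∑ p, (∑ i, n p i * h i) ^ 2 = ∑ i, ∑ j, h i * h j * ∑ p, n p i * n p j := by
  have h1 : ∀ p, (∑ i, n p i * h i) ^ 2 = ∑ i, ∑ j, h i * h j * (n p i * n p j) := by
    intro p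
    rw [sq, sum_mul_sum]
    exact sum_congr rfl fun i _ => sum_congr rfl fun j _ => by ring
  rw [sum_congr rfl fun p _ => h1 p, sum_comm]
  refine sum_congr rfl fun i _ => ?_
  rw [sum_comm]
  exact sum_congr rfl fun j _ => by rw [mul_sum]

section pos

variable {ι κ α β : Type*} [Fintype ι] [Fintype κ] [Fintype α] [Fintype β]

/-- The normalised vector `(c_i / √D_i)`. -/
noncomputable def nv (D c : ι → ℝ) : EuclideanSpace ℝ ι := WithLp.toLp 2 (fun i => c i / √(D i))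

omit [Fintype ι] in
theorem nv_apply (D c : ι → ℝ) (i : ι) : nv D c i = c i / √(D i) := rfl

theorem nv_inner (D c : ι → ℝ) (g : EuclideanSpace ℝ ι) :
    ⟪nv D c, g⟫_ℝ = ∑ i, c i * (g i / √(D i)) := by
  rw [PiLp.inner_apply]
  refine sum_congr rfl fun i _ => ?_
  simp only [RCLike.inner_apply, conj_trivial, nv_apply]
  ring

theorem nv_form (D : ι → ℝ) (hpos : ∀ i, 0 < D i) (n : κ → ι → ℝ) (v : α → ι → ℝ)
    (w : β → ι → ℝ) (hD : ∀ i, ∑ p, n p i ^ 2 = D i)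
    (hoff : ∀ i j, i ≠ j → ∑ p, n p i * n p j = ∑ a, v a i * v a j - ∑ b, w b i * w b j)
    (hdiag : ∀ i, ∑ a, v a i ^ 2 = ∑ b, w b i ^ 2) (g : EuclideanSpace ℝ ι) :
    ∑ p, ⟪nv D (n p), g⟫_ℝ ^ 2 =
      ‖g‖ ^ 2 + ∑ a, ⟪nv D (v a), g⟫_ℝ ^ 2 - ∑ b, ⟪nv D (w b), g⟫_ℝ ^ 2 := by
  classical
  have hsq : ∀ i, √(D i) ^ 2 = D i := fun i => Real.sq_sqrt (hpos i).le
  have hsqne : ∀ i, √(D i) ≠ 0 := fun i => (Real.sqrt_pos.2 (hpos i)).ne'
  simp only [nv_inner]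
  rw [sq_sum_expand, sq_sum_expand, sq_sum_expand]
  have h1 : ‖g‖ ^ 2 = ∑ i, ∑ j, (g i / √(D i)) * (g j / √(D j)) *
      (if i = j then D i else 0) := by
    rw [EuclideanSpace.norm_sq_eq]
    refine sum_congr rfl fun i _ => ?_
    rw [Finset.sum_eq_single i]
    · rw [if_pos rfl, Real.norm_eq_abs, sq_abs]
      have := hsqne i
      field_simp
      rw [hsq]
    · intro j _ hj
      rw [if_neg (Ne.symm hj), mul_zero]
    · intro h; exact absurd (mem_univ i) h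
  rw [h1, ← sum_add_distrib, ← sum_sub_distrib]
  refine sum_congr rfl fun i _ => ?_
  rw [← sum_add_distrib, ← sum_sub_distrib]
  refine sum_congr rfl fun j _ => ?_
  rw [← mul_add, ← mul_sub]
  congr 1
  by_cases hij : i = j
  · subst hij
    rw [if_pos rfl]
    have h2 := hdiag i
    have h3 := hD i
    simp only [← sq]
    rw [h2, h3]
    ring
  · rw [if_neg hij, hoff i j hij]
    ring

theorem nv_trace (D : ι → ℝ) (hpos : ∀ i, 0 < D i) (n : κ → ι → ℝ)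
    (hD : ∀ i, ∑ p, n p i ^ 2 = D i) :
    ∑ p, ‖nv D (n p)‖ ^ 2 = Module.finrank ℝ (EuclideanSpace ℝ ι) := by
  have h1 : ∀ p, ‖nv D (n p)‖ ^ 2 = ∑ i, n p i ^ 2 / D i := by
    intro p
    rw [EuclideanSpace.norm_sq_eq]
    refine sum_congr rfl fun i _ => ?_
    rw [nv_apply, Real.norm_eq_abs, sq_abs, div_pow, Real.sq_sqrt (hpos i).le]
  rw [sum_congr rfl fun p _ => h1 p, sum_comm]
  have h2 : ∀ i, ∑ p, n p i ^ 2 / D i = 1 := by
    intro i
    rw [← sum_div, hD]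
    exact div_self (hpos i).ne'
  rw [sum_congr rfl fun i _ => h2 i]
  simp

/-- The vector `(√D_i f_i)`. -/
noncomputable def ev (D f : ι → ℝ) : EuclideanSpace ℝ ι := WithLp.toLp 2 (fun i => √(D i) * f i)

theorem ev_inner (D : ι → ℝ) (hpos : ∀ i, 0 < D i) (c f : ι → ℝ) :
    ⟪nv D c, ev D f⟫_ℝ = ∑ i, c i * f i := by
  rw [nv_inner]
  refine sum_congr rfl fun i _ => ?_
  change c i * (√(D i) * f i / √(D i)) = c i * f i
  rw [mul_comm (√(D i)) (f i), mul_div_assoc, div_self (Real.sqrt_pos.2 (hpos i)).ne', mul_one]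

theorem ev_norm (D : ι → ℝ) (hpos : ∀ i, 0 < D i) (f : ι → ℝ) :
    ‖ev D f‖ ^ 2 = ∑ i, D i * f i ^ 2 := by
  rw [EuclideanSpace.norm_sq_eq]
  refine sum_congr rfl fun i _ => ?_
  change ‖√(D i) * f i‖ ^ 2 = _
  rw [Real.norm_eq_abs, sq_abs, mul_pow, Real.sq_sqrt (hpos i).le]

/-- The inequality if all diagonal entries are positive. -/
theorem gram_bound_pos (n : κ → ι → ℝ) (v : α → ι → ℝ) (w : β → ι → ℝ)
    (hpos : ∀ i, 0 < ∑ p, n p i ^ 2)
    (hoff : ∀ i j, i ≠ j → ∑ p, n p i * n p j = ∑ a, v a i * v a j - ∑ b, w b i * w b j)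
    (hdiag : ∀ i, ∑ a, v a i ^ 2 = ∑ b, w b i ^ 2) (f : ι → ℝ) :
    ∑ p, (∑ i, n p i * f i) ^ 2 ≤
      (Fintype.card β + 1) * ∑ i, (∑ p, n p i ^ 2) * f i ^ 2 := by
  set D : ι → ℝ := fun i => ∑ p, n p i ^ 2 with hD
  have key := trace_bound (fun p => nv D (n p)) (fun a => nv D (v a)) (fun b => nv D (w b))
    (nv_form D hpos n v w (fun _ => rfl) hoff hdiag) (nv_trace D hpos n (fun _ => rfl)) (ev D f)
  simp only [ev_inner D hpos, ev_norm D hpos] at key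
  exact key

/-- The equality case if all diagonal entries are positive. -/
theorem gram_eq_pos (n : κ → ι → ℝ) (v w : Fin 3 → ι → ℝ)
    (hpos : ∀ i, 0 < ∑ p, n p i ^ 2)
    (hoff : ∀ i j, i ≠ j → ∑ p, n p i * n p j = ∑ a, v a i * v a j - ∑ b, w b i * w b j)
    (hdiag : ∀ i, ∑ a, v a i ^ 2 = ∑ b, w b i ^ 2) (f : ι → ℝ) (i₀ : ι) (hf : f i₀ ≠ 0)
    (heq : 4 * ∑ i, (∑ p, n p i ^ 2) * f i ^ 2 ≤ ∑ p, (∑ i, n p i * f i) ^ 2) :
    ∃ a b : (Fin 3 → ℝ) × (Fin 3 → ℝ),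
      (∀ i, ∑ k, a.1 k * v k i = ∑ k, a.2 k * w k i) ∧
      (∀ i, ∑ k, b.1 k * v k i = ∑ k, b.2 k * w k i) ∧
      bf a a = 1 ∧ bf b b = 1 ∧ bf a b = 0 := by
  set D : ι → ℝ := fun i => ∑ p, n p i ^ 2 with hD
  have he0 : ev D f ≠ 0 := by
    intro h
    have h1 : (ev D f) i₀ = 0 := by rw [h]; rfl
    have h2 : √(D i₀) * f i₀ = 0 := h1
    rcases mul_eq_zero.1 h2 with h3 | h3
    · exact (Real.sqrt_pos.2 (hpos i₀)).ne' h3
    · exact hf h3
  obtain ⟨S, N, hS, hxS, hzS, hN, hneg⟩ := trace_eq (fun p => nv D (n p)) (fun a => nv D (v a))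
    (fun b => nv D (w b)) (nv_form D hpos n v w (fun _ => rfl) hoff hdiag)
    (nv_trace D hpos n (fun _ => rfl)) (ev D f) he0 (by
      simp only [ev_inner D hpos, ev_norm D hpos, Fintype.card_fin]
      have h34 : ((3 : ℕ) : ℝ) + 1 = 4 := by norm_num
      rw [h34]
      exact heq)
  rw [Fintype.card_fin] at hS hN
  obtain ⟨a, b, ha, hb, h1, h2, h3⟩ := eq_pair _ _ S N (by omega) hxS hzS hN hneg
  have hcomp : ∀ a : (Fin 3 → ℝ) × (Fin 3 → ℝ),
      psiMap (fun a => nv D (v a)) (fun b => nv D (w b)) a = 0 →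
      ∀ i, ∑ k, a.1 k * v k i = ∑ k, a.2 k * w k i := by
    intro a ha i
    rw [psiMap_apply, sub_eq_zero] at ha
    have h4 : (∑ k, a.1 k • nv D (v k) : EuclideanSpace ℝ ι) i =
        (∑ k, a.2 k • nv D (w k) : EuclideanSpace ℝ ι) i := by rw [ha]
    simp only [Fin.sum_univ_three, PiLp.add_apply, PiLp.smul_apply, nv_apply, smul_eq_mul] at h4
    have h5 : √(D i) ≠ 0 := (Real.sqrt_pos.2 (hpos i)).ne'
    have h6 : ∀ (s : Fin 3 → ℝ) (u : Fin 3 → ι → ℝ),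
        ∑ k, s k * u k i = (∑ k, s k * (u k i / √(D i))) * √(D i) := by
      intro s u
      rw [sum_mul]
      refine sum_congr rfl fun k _ => ?_
      field_simp
    rw [h6 a.1 v, h6 a.2 w, Fin.sum_univ_three, Fin.sum_univ_three, h4]
  exact ⟨a, b, hcomp a ha, hcomp b hb, h1, h2, h3⟩

end pos

section gen

variable {ι κ : Type*} [Fintype ι] [Fintype κ] (n : κ → ι → ℝ)

theorem diag_nonneg (i : ι) : 0 ≤ ∑ p, n p i ^ 2 := sum_nonneg fun p _ => sq_nonneg _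

theorem zero_of_diag (i : ι) (hi : ∑ p, n p i ^ 2 = 0) (p : κ) : n p i = 0 := by
  have := (sum_eq_zero_iff_of_nonneg (fun p _ => sq_nonneg (n p i))).1 hi p (mem_univ p)
  exact pow_eq_zero_iff (two_ne_zero) |>.1 this

theorem sum_support (F : ι → ℝ) (hF : ∀ i, ∑ p, n p i ^ 2 = 0 → F i = 0)
    [DecidablePred fun i => 0 < ∑ p, n p i ^ 2] :
    ∑ i, F i = ∑ i : {i // 0 < ∑ p, n p i ^ 2}, F i := by
  rw [← Finset.sum_subtype (univ.filter (fun i => 0 < ∑ p, n p i ^ 2)) (by simp) F]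
  symm
  apply Finset.sum_filter_of_ne
  intro i _ hi
  rcases (diag_nonneg n i).lt_or_eq with h | h
  · exact h
  · exact absurd (hF i h.symm) hi

/-- The inequality in general. -/
theorem gram_bound {α β : Type*} [Fintype α] [Fintype β] (v : α → ι → ℝ) (w : β → ι → ℝ)
    (hoff : ∀ i j, i ≠ j → ∑ p, n p i * n p j = ∑ a, v a i * v a j - ∑ b, w b i * w b j)
    (hdiag : ∀ i, ∑ a, v a i ^ 2 = ∑ b, w b i ^ 2) (f : ι → ℝ) :
    ∑ p, (∑ i, n p i * f i) ^ 2 ≤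
      (Fintype.card β + 1) * ∑ i, (∑ p, n p i ^ 2) * f i ^ 2 := by
  classical
  have key := gram_bound_pos (ι := {i // 0 < ∑ p, n p i ^ 2}) (fun p i => n p i)
    (fun a i => v a i) (fun b i => w b i) (fun i => i.2)
    (fun i j hij => hoff i j (fun h => hij (Subtype.ext h))) (fun i => hdiag i) (fun i => f i)
  rw [sum_support n (fun i => (∑ p, n p i ^ 2) * f i ^ 2) (fun i hi => by rw [hi, zero_mul])]
  refine le_trans (le_of_eq ?_) key
  refine sum_congr rfl fun p _ => ?_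
  rw [sum_support n (fun i => n p i * f i) (fun i hi => by rw [zero_of_diag n i hi p, zero_mul])]

/-- The equality case. -/
theorem gram_eq (v w : Fin 3 → ι → ℝ)
    (hoff : ∀ i j, i ≠ j → ∑ p, n p i * n p j = ∑ a, v a i * v a j - ∑ b, w b i * w b j)
    (hdiag : ∀ i, ∑ a, v a i ^ 2 = ∑ b, w b i ^ 2) (f : ι → ℝ) (i₀ : ι) (hf : f i₀ ≠ 0)
    (hi₀ : 0 < ∑ p, n p i₀ ^ 2)
    (heq : 4 * ∑ i, (∑ p, n p i ^ 2) * f i ^ 2 ≤ ∑ p, (∑ i, n p i * f i) ^ 2) :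
    ∃ a b : (Fin 3 → ℝ) × (Fin 3 → ℝ),
      (∀ i, 0 < ∑ p, n p i ^ 2 → ∑ k, a.1 k * v k i = ∑ k, a.2 k * w k i) ∧
      (∀ i, 0 < ∑ p, n p i ^ 2 → ∑ k, b.1 k * v k i = ∑ k, b.2 k * w k i) ∧
      bf a a = 1 ∧ bf b b = 1 ∧ bf a b = 0 := by
  classical
  have hs : ∀ p, ∑ i, n p i * f i = ∑ i : {i // 0 < ∑ p, n p i ^ 2}, n p i * f i := fun p =>
    sum_support n (fun i => n p i * f i) (fun i hi => by rw [zero_of_diag n i hi p, zero_mul])
  rw [sum_support n (fun i => (∑ p, n p i ^ 2) * f i ^ 2) (fun i hi => by rw [hi, zero_mul])] at heq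
  simp only [hs] at heq
  obtain ⟨a, b, ha, hb, h1, h2, h3⟩ := gram_eq_pos (ι := {i // 0 < ∑ p, n p i ^ 2})
    (fun p i => n p i) (fun a i => v a i) (fun b i => w b i) (fun i => i.2)
    (fun i j hij => hoff i j (fun h => hij (Subtype.ext h))) (fun i => hdiag i) (fun i => f i)
    ⟨i₀, hi₀⟩ hf heq
  exact ⟨a, b, fun i hi => ha ⟨i, hi⟩, fun i hi => hb ⟨i, hi⟩, h1, h2, h3⟩

end gen

end Pool.Agent.Helper54.TC
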