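import Mathlib

/-!
# A trace inequality for Gram matrices

If `N Nᵀ = D + G` where `D` is the diagonal of `N Nᵀ` and `G` is a Gram matrix of vectors of square
zero in a space with a form of signature `(a, b)`, then `|Nᵀ f|² ≤ (b + 1) ⟨D f, f⟩`.
-/

namespace Pool.Agent.Helper54.TC

open Finset

open scoped InnerProductSpace

/-- Bessel inequality for a unit vector and an orthonormal basis of a subspace orthogonal to it. -/
theorem trace_bound {ι α β : Type*} [Fintype ι] [Fintype α] [Fintype β]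
    {E : Type*} [NormedAddCommGroup E] [InnerProductSpace ℝ E] [FiniteDimensional ℝ E]
    (b : ι → E) (x : α → E) (z : β → E)
    (h1 : ∀ f : E, ∑ p, ⟪b p, f⟫_ℝ ^ 2 =
      ‖f‖ ^ 2 + ∑ a, ⟪x a, f⟫_ℝ ^ 2 - ∑ c, ⟪z c, f⟫_ℝ ^ 2)
    (h2 : ∑ p, ‖b p‖ ^ 2 = Module.finrank ℝ E) (e : E) :
    ∑ p, ⟪b p, e⟫_ℝ ^ 2 ≤ (Fintype.card β + 1) * ‖e‖ ^ 2 := by
  classical
  rcases eq_or_ne e 0 with rfl | he
  · simp
  have hne : ‖e‖ ≠ 0 := norm_ne_zero_iff.mpr he
  set u : E := (‖e‖)⁻¹ • e with hu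
  have hu1 : ‖u‖ = 1 := by
    rw [hu, norm_smul, norm_inv, norm_norm, inv_mul_cancel₀ hne]
  have heu : e = ‖e‖ • u := by
    rw [hu, smul_smul, mul_inv_cancel₀ hne, one_smul]
  set g : Option β → E := fun o => o.elim u z with hg
  set S : Submodule ℝ E := Submodule.span ℝ (Set.range g) with hS
  have hS1 : Module.finrank ℝ S ≤ Fintype.card β + 1 := by
    have := finrank_range_le_card (R := ℝ) g
    rw [Fintype.card_option] at this
    exact this
  have huS : u ∈ S := Submodule.subset_span ⟨none, rfl⟩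
  have hzS : ∀ c, z c ∈ S := fun c => Submodule.subset_span ⟨some c, rfl⟩
  have hfin := Submodule.finrank_add_finrank_orthogonal S
  set w := stdOrthonormalBasis ℝ Sᗮ with hw
  have hwn : ∀ j, ‖(w j : E)‖ = 1 := by
    intro j
    have := w.orthonormal.1 j
    rwa [Submodule.coe_norm] at this
  have hwS : ∀ j, ∀ y ∈ S, ⟪y, (w j : E)⟫_ℝ = 0 := by
    intro j y hy
    exact (Submodule.mem_orthogonal S _).1 (w j).2 y hy
  -- the orthonormal family
  set v : Option (Fin (Module.finrank ℝ Sᗮ)) → E := fun o => o.elim u (fun j => (w j : E)) with hv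
  have hvo : Orthonormal ℝ v := by
    constructor
    · intro o
      cases o with
      | none => exact hu1
      | some j => exact hwn j
    · intro o o' hoo
      cases o with
      | none =>
        cases o' with
        | none => exact absurd rfl hoo
        | some j => exact hwS j u huS
      | some i =>
        cases o' with
        | none =>
          change ⟪(w i : E), u⟫_ℝ = 0
          rw [real_inner_comm]
          exact hwS i u huS
        | some j =>
          have hij : i ≠ j := fun h => hoo (by rw [h])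
          have h : ⟪w i, w j⟫_ℝ = 0 := w.orthonormal.2 hij
          rw [Submodule.coe_inner] at h
          exact h
  have hbessel : ∀ p, ⟪b p, u⟫_ℝ ^ 2 + ∑ j, ⟪b p, (w j : E)⟫_ℝ ^ 2 ≤ ‖b p‖ ^ 2 := by
    intro p
    have := hvo.sum_inner_products_le (b p) (s := univ)
    rw [Fintype.sum_option] at this
    simp only [hv, Option.elim, Real.norm_eq_abs, sq_abs] at this
    calc _ = ⟪u, b p⟫_ℝ ^ 2 + ∑ j, ⟪(w j : E), b p⟫_ℝ ^ 2 := by
          rw [real_inner_comm]
          congr 1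
          exact sum_congr rfl fun j _ => by rw [real_inner_comm]
      _ ≤ _ := this
  have hlow : ∀ j, 1 ≤ ∑ p, ⟪b p, (w j : E)⟫_ℝ ^ 2 := by
    intro j
    rw [h1 (w j : E), hwn j]
    have : ∑ c, ⟪z c, (w j : E)⟫_ℝ ^ 2 = 0 :=
      sum_eq_zero fun c _ => by rw [hwS j (z c) (hzS c)]; ring
    rw [this]
    have : 0 ≤ ∑ a, ⟪x a, (w j : E)⟫_ℝ ^ 2 := sum_nonneg fun a _ => sq_nonneg _
    linarith
  have hsum : ∑ p, ⟪b p, u⟫_ℝ ^ 2 + ∑ j, ∑ p, ⟪b p, (w j : E)⟫_ℝ ^ 2 ≤
      Module.finrank ℝ E := by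
    rw [← h2, sum_comm, ← sum_add_distrib]
    exact sum_le_sum fun p _ => hbessel p
  have hlow2 : (Module.finrank ℝ Sᗮ : ℝ) ≤ ∑ j, ∑ p, ⟪b p, (w j : E)⟫_ℝ ^ 2 := by
    calc (Module.finrank ℝ Sᗮ : ℝ) = ∑ _j : Fin (Module.finrank ℝ Sᗮ), (1 : ℝ) := by simp
      _ ≤ _ := sum_le_sum fun j _ => hlow j
  have hmain : ∑ p, ⟪b p, u⟫_ℝ ^ 2 ≤ Fintype.card β + 1 := by
    have h3 : (Module.finrank ℝ S : ℝ) ≤ Fintype.card β + 1 := by exact_mod_cast hS1
    have h4 : (Module.finrank ℝ S : ℝ) + Module.finrank ℝ Sᗮ = Module.finrank ℝ E := by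
      exact_mod_cast hfin
    linarith
  calc ∑ p, ⟪b p, e⟫_ℝ ^ 2 = (∑ p, ⟪b p, u⟫_ℝ ^ 2) * ‖e‖ ^ 2 := by
        rw [sum_mul]
        refine sum_congr rfl fun p _ => ?_
        conv_lhs => rw [heu]
        rw [inner_smul_right]
        ring
    _ ≤ _ := mul_le_mul_of_nonneg_right hmain (sq_nonneg _)

end Pool.Agent.Helper54.TC
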