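import Pool.Agent.Helper54.TC.Abstract
import Pool.Agent.Helper54.TC.Count

/-!
# Linear two-dimensional tori in the four-dimensional torus
-/

namespace Pool.Agent.Helper54.TC

open Finset Matrix

/-- The subset `{x : A x = y}` of the torus `(ℝ/ℤ)⁴`, for an integral `2 × 4` matrix `A` and
`y ∈ (ℝ/ℤ)²`. If `A` maps `ℤ⁴` onto `ℤ²` it is a linear two-dimensional torus (a translate of a
connected two-dimensional subgroup), and every linear two-dimensional torus is of this form; in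
general it is a finite union of parallel linear tori (or empty, or of dimension at least three). -/
def torus (A : Matrix (Fin 2) (Fin 4) ℤ) (y : Fin 2 → UnitAddCircle) :
    Set (Fin 4 → UnitAddCircle) := {x | ∀ k, ∑ j, A k j • x j = y k}

/-- The intersection number of two such tori: the determinant of the `4 × 4` matrix formed by the
rows of `A` and the rows of `A'` (the tori are cooriented by the order of the rows). -/
def inter (A A' : Matrix (Fin 2) (Fin 4) ℤ) : ℤ := (Matrix.of ![A 0, A 1, A' 0, A' 1]).det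

/-- Plücker coordinates. -/
def pl (A : Matrix (Fin 2) (Fin 4) ℤ) (i j : Fin 4) : ℤ := A 0 i * A 1 j - A 0 j * A 1 i

theorem inter_eq (A B : Matrix (Fin 2) (Fin 4) ℤ) :
    inter A B = pl A 0 1 * pl B 2 3 - pl A 0 2 * pl B 1 3 + pl A 0 3 * pl B 1 2 +
      pl A 1 2 * pl B 0 3 - pl A 1 3 * pl B 0 2 + pl A 2 3 * pl B 0 1 := by
  unfold inter pl
  rw [Matrix.det_succ_row_zero]
  simp only [Fin.sum_univ_succ, Matrix.det_fin_three]
  simp [Matrix.submatrix, Fin.succAbove]
  ring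

theorem pl_self (A : Matrix (Fin 2) (Fin 4) ℤ) :
    pl A 0 1 * pl A 2 3 - pl A 0 2 * pl A 1 3 + pl A 0 3 * pl A 1 2 = 0 := by
  unfold pl
  ring

/-- The positive coordinates. -/
noncomputable def vp (A : Matrix (Fin 2) (Fin 4) ℤ) : Fin 3 → ℝ :=
  ![((pl A 0 1 : ℝ) + pl A 2 3) / √2, ((pl A 0 2 : ℝ) - pl A 1 3) / √2,
    ((pl A 0 3 : ℝ) + pl A 1 2) / √2]

/-- The negative coordinates. -/
noncomputable def wp (A : Matrix (Fin 2) (Fin 4) ℤ) : Fin 3 → ℝ :=
  ![((pl A 0 1 : ℝ) - pl A 2 3) / √2, ((pl A 0 2 : ℝ) + pl A 1 3) / √2,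
    ((pl A 0 3 : ℝ) - pl A 1 2) / √2]

theorem inter_form (A B : Matrix (Fin 2) (Fin 4) ℤ) :
    (inter A B : ℝ) = ∑ a, vp A a * vp B a - ∑ b, wp A b * wp B b := by
  have h2 : √(2 : ℝ) * √2 = 2 := Real.mul_self_sqrt (by norm_num)
  have hne : √(2 : ℝ) ≠ 0 := by positivity
  rw [inter_eq]
  simp only [Fin.sum_univ_three, vp, wp, Matrix.cons_val_zero, Matrix.cons_val_one,
    Matrix.cons_val_two, Matrix.head_cons, Matrix.tail_cons]
  simp only [div_mul_div_comm, h2]
  push_cast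
  ring

theorem self_form (A : Matrix (Fin 2) (Fin 4) ℤ) : ∑ a, vp A a ^ 2 = ∑ b, wp A b ^ 2 := by
  have h2 : √(2 : ℝ) ^ 2 = 2 := Real.sq_sqrt (by norm_num)
  have h : ((pl A 0 1 : ℝ) * pl A 2 3 - pl A 0 2 * pl A 1 3 + pl A 0 3 * pl A 1 2) = 0 := by
    exact_mod_cast pl_self A
  simp only [Fin.sum_univ_three, vp, wp, Matrix.cons_val_zero, Matrix.cons_val_one,
    Matrix.cons_val_two, Matrix.head_cons, Matrix.tail_cons]
  simp only [div_pow, h2]
  linear_combination 2 * h

/-- Points on both tori. -/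
theorem mem_both (A A' : Matrix (Fin 2) (Fin 4) ℤ) (y y' : Fin 2 → UnitAddCircle)
    (x : Fin 4 → UnitAddCircle) : (x ∈ torus A y ∧ x ∈ torus A' y') ↔
      act (Matrix.of ![A 0, A 1, A' 0, A' 1]) x = ![y 0, y 1, y' 0, y' 1] := by
  rw [funext_iff]
  simp only [torus, Set.mem_ofPred_eq, act_apply]
  constructor
  · rintro ⟨h1, h2⟩ k
    fin_cases k
    · exact h1 0
    · exact h1 1
    · exact h2 0
    · exact h2 1
  · intro h
    refine ⟨fun k => ?_, fun k => ?_⟩
    · fin_cases k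
      · exact h 0
      · exact h 1
    · fin_cases k
      · exact h 2
      · exact h 3

theorem card_both (A A' : Matrix (Fin 2) (Fin 4) ℤ) (y y' : Fin 2 → UnitAddCircle)
    (h : inter A A' ≠ 0) :
    Nat.card {x : Fin 4 → UnitAddCircle // x ∈ torus A y ∧ x ∈ torus A' y'} =
      (inter A A').natAbs := by
  rw [inter, ← card_fiber (Matrix.of ![A 0, A 1, A' 0, A' 1]) h ![y 0, y 1, y' 0, y' 1]]
  exact Nat.card_congr (Equiv.subtypeEquivRight fun x => mem_both A A' y y' x)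

theorem finite_both (A A' : Matrix (Fin 2) (Fin 4) ℤ) (y y' : Fin 2 → UnitAddCircle)
    (h : inter A A' ≠ 0) : {x | x ∈ torus A y ∧ x ∈ torus A' y'}.Finite := by
  have h1 := card_both A A' y y' h
  have h2 : Nat.card {x : Fin 4 → UnitAddCircle // x ∈ torus A y ∧ x ∈ torus A' y'} ≠ 0 := by
    rw [h1]; exact Int.natAbs_ne_zero.2 h
  exact Set.finite_coe_iff.1 (Nat.finite_of_card_ne_zero h2)

variable {ι : Type} [Fintype ι]

open Classical in
/-- The tori through a point. -/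
noncomputable def through (A : ι → Matrix (Fin 2) (Fin 4) ℤ) (y : ι → Fin 2 → UnitAddCircle)
    (p : Fin 4 → UnitAddCircle) : Finset ι := univ.filter fun i => p ∈ torus (A i) (y i)

theorem mem_through (A : ι → Matrix (Fin 2) (Fin 4) ℤ) (y : ι → Fin 2 → UnitAddCircle)
    (p : Fin 4 → UnitAddCircle) (i : ι) : i ∈ through A y p ↔ p ∈ torus (A i) (y i) := by
  unfold through
  simp

theorem finite_pts (A : ι → Matrix (Fin 2) (Fin 4) ℤ) (y : ι → Fin 2 → UnitAddCircle)
    (h : ∀ i j, i ≠ j → 0 < inter (A i) (A j) ∨ Disjoint (torus (A i) (y i)) (torus (A j) (y j))) :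
    {p | 2 ≤ #(through A y p)}.Finite := by
  have h1 : {p | 2 ≤ #(through A y p)} ⊆ ⋃ q : {q : ι × ι // q.1 ≠ q.2},
      {p | p ∈ torus (A q.1.1) (y q.1.1) ∧ p ∈ torus (A q.1.2) (y q.1.2)} := by
    intro p hp
    have hp' : 1 < #(through A y p) := hp
    obtain ⟨i, hi, j, hj, hij⟩ := one_lt_card.1 hp'
    rw [Set.mem_iUnion]
    exact ⟨⟨(i, j), hij⟩, (mem_through A y p i).1 hi, (mem_through A y p j).1 hj⟩
  refine Set.Finite.subset (Set.finite_iUnion ?_) h1
  rintro ⟨⟨i, j⟩, hij⟩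
  rcases h i j hij with h2 | h2
  · exact finite_both _ _ _ _ h2.ne'
  · have : {p | p ∈ torus (A i) (y i) ∧ p ∈ torus (A j) (y j)} = ∅ := by
      rw [Set.eq_empty_iff_forall_notMem]
      rintro p ⟨h3, h4⟩
      exact Set.disjoint_left.1 h2 h3 h4
    exact this ▸ Set.finite_empty

section

variable [DecidableEq ι] [DecidableEq (Fin 4 → UnitAddCircle)]

omit [DecidableEq (Fin 4 → UnitAddCircle)] in
/-- The number of common points is the value of a form of signature `(3, 3)`. -/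
theorem card_form (A : ι → Matrix (Fin 2) (Fin 4) ℤ) (y : ι → Fin 2 → UnitAddCircle)
    (h : ∀ i j, i ≠ j → 0 < inter (A i) (A j) ∨ Disjoint (torus (A i) (y i)) (torus (A j) (y j)))
    (P : Finset (Fin 4 → UnitAddCircle)) (hP : ∀ p, p ∈ P ↔ 2 ≤ #(through A y p)) (i j : ι)
    (hij : i ≠ j) : (#{p ∈ P | i ∈ through A y p ∧ j ∈ through A y p} : ℝ) =
      ∑ a, vp (A i) a * vp (A j) a - ∑ b, wp (A i) b * wp (A j) b := by
  rw [← inter_form]
  have h1 : (#{p ∈ P | i ∈ through A y p ∧ j ∈ through A y p} : ℕ) =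
      Nat.card {p : Fin 4 → UnitAddCircle // p ∈ torus (A i) (y i) ∧ p ∈ torus (A j) (y j)} := by
    rw [← Nat.card_eq_finsetCard]
    refine Nat.card_congr (Equiv.subtypeEquivRight fun p => ?_)
    rw [mem_filter, mem_through, mem_through, hP]
    refine ⟨fun h => h.2, fun h => ⟨?_, h⟩⟩
    exact one_lt_card.2 ⟨i, (mem_through A y p i).2 h.1, j, (mem_through A y p j).2 h.2, hij⟩
  rw [h1]
  rcases h i j hij with h2 | h2
  · rw [card_both _ _ _ _ h2.ne', Nat.cast_natAbs, abs_of_pos h2]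
  · have h3 : Nat.card {p : Fin 4 → UnitAddCircle //
        p ∈ torus (A i) (y i) ∧ p ∈ torus (A j) (y j)} = 0 := by
      have : IsEmpty {p : Fin 4 → UnitAddCircle //
          p ∈ torus (A i) (y i) ∧ p ∈ torus (A j) (y j)} :=
        ⟨fun p => Set.disjoint_left.1 h2 p.2.1 p.2.2⟩
      exact Nat.card_of_isEmpty
    have h4 : inter (A i) (A j) = 0 := by
      by_contra h5
      rw [card_both _ _ _ _ h5] at h3
      exact h5 (Int.natAbs_eq_zero.1 h3)
    rw [h3, h4]
    norm_num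

/-- The theorem for linear tori in the four-torus. -/
theorem bmy_torus (A : ι → Matrix (Fin 2) (Fin 4) ℤ) (y : ι → Fin 2 → UnitAddCircle)
    (h : ∀ i j, i ≠ j → 0 < inter (A i) (A j) ∨ Disjoint (torus (A i) (y i)) (torus (A j) (y j)))
    (P B : Finset (Fin 4 → UnitAddCircle)) (hP : ∀ p, p ∈ P ↔ 2 ≤ #(through A y p)) (hB : B ⊆ P)
    (hc : ∀ p ∈ P \ B, #(through A y p) = 2) (x : ι → ℝ) (hx : ∀ i, 0 ≤ x i)
    (z : (Fin 4 → UnitAddCircle) → ℝ) :
    c1sq P B (through A y) x z ≤ 3 * c2 P B (through A y) x z :=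
  bmy_abstract P B hB (through A y) hc (fun a i => vp (A i) a) (fun b i => wp (A i) b)
    (fun i => self_form (A i)) (card_form A y h P hP) x hx z

/-- The inequality for the multiplicities. -/
theorem mult_torus (A : ι → Matrix (Fin 2) (Fin 4) ℤ) (y : ι → Fin 2 → UnitAddCircle)
    (h : ∀ i j, i ≠ j → 0 < inter (A i) (A j) ∨ Disjoint (torus (A i) (y i)) (torus (A j) (y j)))
    (P : Finset (Fin 4 → UnitAddCircle)) (hP : ∀ p, p ∈ P ↔ 2 ≤ #(through A y p)) :
    ∑ p ∈ P, #(through A y p) ^ 2 ≤ 4 * ∑ p ∈ P, #(through A y p) := by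
  have h1 := main_nonneg P P (Subset.refl _) (through A y) (by simp)
    (fun a i => vp (A i) a) (fun b i => wp (A i) b)
    (fun i => self_form (A i)) (card_form A y h P hP) (fun _ => 1) (fun _ => zero_le_one)
  simp only [sdiff_self, sum_const, nsmul_eq_mul, mul_one, one_pow, Fintype.card_fin] at h1
  have h2 : (∑ p ∈ P, (#(through A y p) : ℝ) ^ 2) ≤ 4 * ∑ p ∈ P, (#(through A y p) : ℝ) := by
    norm_num at h1
    linarith
  exact_mod_cast h2

end

end Pool.Agent.Helper54.TC
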