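import Pool.Agent.Helper54.TC.Complex

/-!
# The Bogomolov-Miyaoka-Yau inequality for coverings of the four-torus branched along tori

Let `T i` be finitely many linear two-dimensional tori in the four-torus `T⁴ = (ℝ/ℤ)⁴` such that any
two of them are disjoint or have positive intersection number (so all intersections are positive
and transverse). Blow up a set `B` of points of intersection, which contains all points of
multiplicity at least three. We consider the coverings of the blow up, branched along the proper
transforms of the tori and along the exceptional spheres. Their Chern numbers, divided by the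
degree, are the numbers `c1sq` and `c2` (see `Pool.Agent.Helper54.TC.Abstract`). We prove
`c₁² ≤ 3 c₂` for all real weights (nonnegative on the tori), and that in the case of equality the
tori are complex curves for a (linear) complex structure of `T⁴`.

In general the tori are not complex curves for a complex structure of `T⁴`. The inequality holds
more generally for symplectic tori of square zero, which meet positively and only in ordinary
multiple points, in closed symplectic four-manifolds with `c₁² = c₂ = 0` and `b⁻ ≤ 3`
(`Pool.Agent.Helper54.TC.bmy_abstract`): only the intersection numbers are used, which are given by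
a form whose negative part has rank at most three.
-/

namespace Pool.Agent.Results.MP_872606_gt.TorusCovers

open Finset Matrix Pool.Agent.Helper54.TC

/-- If all weights are zero, `c₁²` is that of the blow up of a manifold with `c₁² = 0` in the
points of `B` (a check of the definition). -/
theorem c1sq_zero {ι κ : Type} [Fintype ι] [DecidableEq ι] [DecidableEq κ] (P B : Finset κ)
    (c : κ → Finset ι) : c1sq P B c (fun _ => 0) (fun _ => 0) = - #B := by
  simp [c1sq]

/-- If all weights are zero, `c₂` is the Euler number of the blow up of a manifold with Euler
number zero in the points of `B` (a check of the definition). -/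
theorem c2_zero {ι κ : Type} [Fintype ι] [DecidableEq ι] [DecidableEq κ] (P B : Finset κ)
    (hB : B ⊆ P) (c : κ → Finset ι) (hc : ∀ p ∈ P \ B, #(c p) = 2) :
    c2 P B c (fun _ => 0) (fun _ => 0) = #B := by
  rw [c2_eq P B hB c hc]
  have h : ∀ p ∈ P \ B, ∏ _i ∈ c p, (0 : ℝ) = 0 := by
    intro p hp
    rw [prod_const, hc p hp]
    norm_num
  rw [sum_congr rfl h]
  simp

/-- The inequality `c₁² ≤ 3 c₂` for coverings of the four-torus branched along linear tori, and the
case of equality.

Let `T i = {x : A i x = y i}` be linear tori in `(ℝ/ℤ)⁴`, any two of which are disjoint or have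
positive intersection number. The set `P` of the points which lie on at least two tori is finite.
Let `B ⊆ P` contain all points of `P` of multiplicity different from two, let `x i` be weights of
the tori and `z p` weights of the exceptional spheres. Then `c₁² ≤ 3 c₂` if all `x i ≥ 0`. If all
`x i > 0` and `c₁² = 3 c₂`, there is a complex structure `J` on `ℝ⁴` such that the tangent space
`{u : A i u = 0}` of every torus `T i` which meets another one is `J`-invariant. -/
theorem result : ∀ (ι : Type) [Fintype ι] [DecidableEq ι] [DecidableEq (Fin 4 → UnitAddCircle)]
    (A : ι → Matrix (Fin 2) (Fin 4) ℤ) (y : ι → Fin 2 → UnitAddCircle),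
    (∀ i j, i ≠ j → 0 < inter (A i) (A j) ∨ Disjoint (torus (A i) (y i)) (torus (A j) (y j))) →
    ∃ P : Finset (Fin 4 → UnitAddCircle),
      (∀ p, p ∈ P ↔ 2 ≤ #(through A y p)) ∧
      ∀ B ⊆ P, (∀ p ∈ P \ B, #(through A y p) = 2) →
        ∀ (x : ι → ℝ) (z : (Fin 4 → UnitAddCircle) → ℝ),
          ((∀ i, 0 ≤ x i) → c1sq P B (through A y) x z ≤ 3 * c2 P B (through A y) x z) ∧
          ((∀ i, 0 < x i) → c1sq P B (through A y) x z = 3 * c2 P B (through A y) x z →
            ∃ J : Matrix (Fin 4) (Fin 4) ℝ, J * J = -1 ∧
              ∀ p ∈ P, ∀ i ∈ through A y p, ∀ u : Fin 4 → ℝ,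
                ra (A i) *ᵥ u = 0 → ra (A i) *ᵥ (J *ᵥ u) = 0) := by
  intro ι _ _ _ A y h
  have hmem : ∀ p, p ∈ (finite_pts A y h).toFinset ↔ 2 ≤ #(through A y p) := fun p => by
    rw [Set.Finite.mem_toFinset]
    exact Iff.rfl
  refine ⟨(finite_pts A y h).toFinset, hmem, ?_⟩
  intro B hB hc x z
  exact ⟨fun hx => bmy_torus A y h _ B hmem hB hc x hx z,
    fun hx heq => torus_eq A y h _ B hmem hB hc x hx z heq⟩

end Pool.Agent.Results.MP_872606_gt.TorusCovers
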